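import Mathlib

/-!
# Higher commutators of congruences of a semigroup

The definitions of the problem file: the matrices `M(α₁,…,αₙ)`, the `n`-ary commutator,
supernilpotence, left nilpotence and right nilpotence.  We write `n = k + 1`.
-/

namespace Q25.SN

universe u

/-- Matrices with `2 ^ k` rows and two columns.  The rows are indexed by
`ε ∈ {0,1}^k` (`false` is `0`, `true` is `1`); the row `ε` of `x` is the pair `x ε`. -/
abbrev Mat (S : Type u) (k : ℕ) : Type u := (Fin k → Bool) → S × S

/-- The generating matrices of `M(α₁,…,α_{k+1})`. -/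
def gens {S : Type u} [Semigroup S] {k : ℕ} (α : Fin (k + 1) → Con S) : Set (Mat S k) :=
  {x | ∃ (i : Fin k) (a b : S), α i.castSucc a b ∧
        x = fun ε => if ε i then (b, b) else (a, a)} ∪
  {x | ∃ a b : S, α (Fin.last k) a b ∧ x = fun _ => (a, b)}

/-- `M(α₁,…,α_{k+1})`, the subsemigroup of the semigroup of all matrices (with the entrywise
product) generated by `gens α`. -/
def mats {S : Type u} [Semigroup S] {k : ℕ} (α : Fin (k + 1) → Con S) :
    Subsemigroup (Mat S k) :=
  Subsemigroup.closure (gens α)

/-- The condition on `δ` in the definition of the commutator: whenever the two entries of every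
row `ε ≠ (1,…,1)` of a matrix in `M(α₁,…,α_{k+1})` are `δ`-related, so are the two entries of the
row `(1,…,1)`. -/
def Centralizes {S : Type u} [Semigroup S] {k : ℕ} (α : Fin (k + 1) → Con S) (δ : Con S) :
    Prop :=
  ∀ x ∈ mats α, (∀ ε : Fin k → Bool, ε ≠ (fun _ => true) → δ (x ε).1 (x ε).2) →
    δ (x (fun _ => true)).1 (x (fun _ => true)).2

/-- The commutator `[α₁,…,α_{k+1}]`: the least congruence `δ` with `Centralizes α δ`
(it has this property, see `commutator_isLeast`). -/
def commutator {S : Type u} [Semigroup S] {k : ℕ} (α : Fin (k + 1) → Con S) : Con S :=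
  sInf {δ | Centralizes α δ}

theorem commutator_isLeast {S : Type u} [Semigroup S] {k : ℕ} (α : Fin (k + 1) → Con S) :
    IsLeast {δ | Centralizes α δ} (commutator α) := by
  refine ⟨?_, fun δ hδ => sInf_le hδ⟩
  intro x hx h
  have key : ∀ δ : Con S, Centralizes α δ →
      δ (x (fun _ => true)).1 (x (fun _ => true)).2 := by
    intro δ hδ
    refine hδ x hx fun ε hε => ?_
    exact (sInf_le hδ : commutator α ≤ δ) (h ε hε)
  exact fun δ hδ => key δ hδ

/-- `S` is `d`-supernilpotent: `[1,…,1] = 0` with `d + 1` copies of `1`. -/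
def Supernilpotent (d : ℕ) (S : Type u) [Semigroup S] : Prop :=
  commutator (k := d) (fun _ => (⊤ : Con S)) = ⊥

/-- `[1,[1,…,[1,1]…]]` with `d + 1` copies of `1`. -/
def leftSeries (S : Type u) [Semigroup S] : ℕ → Con S
  | 0 => ⊤
  | d + 1 => commutator (k := 1) ![⊤, leftSeries S d]

/-- `[…[[1,1],1],…,1]` with `d + 1` copies of `1`. -/
def rightSeries (S : Type u) [Semigroup S] : ℕ → Con S
  | 0 => ⊤
  | d + 1 => commutator (k := 1) ![rightSeries S d, ⊤]

/-- `S` is left `d`-nilpotent: `[1,[1,…,[1,1]…]] = 0` with `d + 1` copies of `1`. -/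
def LeftNilpotent (d : ℕ) (S : Type u) [Semigroup S] : Prop := leftSeries S d = ⊥

/-- `S` is right `d`-nilpotent: `[…[[1,1],1],…,1] = 0` with `d + 1` copies of `1`. -/
def RightNilpotent (d : ℕ) (S : Type u) [Semigroup S] : Prop := rightSeries S d = ⊥

end Q25.SN
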