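import Mathlib
import Pool.Agent.Q25.SN.Defs

/-!
# Basic tools for the binary commutator
-/

namespace Q25.SN

universe u

variable {S : Type u} [Semigroup S]

abbrev r0 : Fin 1 → Bool := fun _ => false
abbrev r1 : Fin 1 → Bool := fun _ => true

theorem r0_ne : r0 ≠ r1 := by
  intro h
  have := congrFun h 0
  exact absurd this (by decide)

theorem row_cases (ε : Fin 1 → Bool) : ε = r0 ∨ ε = r1 := by
  cases h : ε 0 with
  | false => left; funext i; rw [Subsingleton.elim i 0, h]
  | true => right; funext i; rw [Subsingleton.elim i 0, h]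

/-- membership in `gens` for two congruences -/
theorem gens_two {α β : Con S} {x : Mat S 1} (hx : x ∈ gens (k := 1) ![α, β]) :
    (∃ a b, α a b ∧ x r0 = (a, a) ∧ x r1 = (b, b)) ∨ (∃ a b, β a b ∧ x r0 = (a, b) ∧
      x r1 = (a, b)) := by
  rcases hx with ⟨i, a, b, h, rfl⟩ | ⟨a, b, h, rfl⟩
  · left
    have : i = 0 := Subsingleton.elim _ _
    subst this
    exact ⟨a, b, h, by simp [r0], by simp [r1]⟩
  · right
    exact ⟨a, b, h, rfl, rfl⟩

/-- induction for matrices of two congruences -/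
theorem mats_ind {α β : Con S} (P : S → S → S → S → Prop)
    (h0 : ∀ a b, α a b → P a a b b) (h1 : ∀ a b, β a b → P a b a b)
    (hm : ∀ a b c d a' b' c' d', P a b c d → P a' b' c' d' →
      P (a * a') (b * b') (c * c') (d * d')) :
    ∀ x ∈ mats (k := 1) ![α, β], P (x r0).1 (x r0).2 (x r1).1 (x r1).2 := by
  intro x hx
  induction hx using Subsemigroup.closure_induction with
  | mem x hx =>
    rcases gens_two hx with ⟨a, b, h, e0, e1⟩ | ⟨a, b, h, e0, e1⟩
    · rw [e0, e1]; exact h0 a b h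
    · rw [e0, e1]; exact h1 a b h
  | mul x z _ _ ihx ihz => exact hm _ _ _ _ _ _ _ _ ihx ihz

/-- a criterion for `Centralizes` -/
theorem cent_of {α β δ : Con S} (P : S → S → S → S → Prop)
    (h0 : ∀ a b, α a b → P a a b b) (h1 : ∀ a b, β a b → P a b a b)
    (hm : ∀ a b c d a' b' c' d', P a b c d → P a' b' c' d' →
      P (a * a') (b * b') (c * c') (d * d'))
    (hP : ∀ a b c d, P a b c d → δ a b → δ c d) : Centralizes (k := 1) ![α, β] δ := by
  intro x hx h
  exact hP _ _ _ _ (mats_ind P h0 h1 hm x hx) (h r0 r0_ne)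

theorem gens_mono {k : ℕ} {α β : Fin (k + 1) → Con S} (h : ∀ i, α i ≤ β i) :
    gens α ⊆ gens β := by
  rintro x (⟨i, a, b, hab, e⟩ | ⟨a, b, hab, e⟩)
  · exact Or.inl ⟨i, a, b, h _ hab, e⟩
  · exact Or.inr ⟨a, b, h _ hab, e⟩

theorem mats_mono {k : ℕ} {α β : Fin (k + 1) → Con S} (h : ∀ i, α i ≤ β i) :
    mats α ≤ mats β := Subsemigroup.closure_mono (gens_mono h)

theorem cent_mono {k : ℕ} {α β : Fin (k + 1) → Con S} {δ : Con S} (h : ∀ i, α i ≤ β i)
    (hc : Centralizes β δ) : Centralizes α δ :=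
  fun x hx => hc x (mats_mono h hx)

theorem cent_two_mono {α β α' β' δ : Con S} (h : α ≤ α') (h' : β ≤ β')
    (hc : Centralizes (k := 1) ![α', β'] δ) : Centralizes (k := 1) ![α, β] δ := by
  refine cent_mono (fun i => ?_) hc
  fin_cases i
  · exact h
  · exact h'

theorem comm_le {k : ℕ} {α : Fin (k + 1) → Con S} {δ : Con S} (h : Centralizes α δ) :
    commutator α ≤ δ := sInf_le h

theorem left_le {n : ℕ} {δ δ' : Con S} (h : leftSeries S n ≤ δ)
    (hc : Centralizes (k := 1) ![⊤, δ] δ') : leftSeries S (n + 1) ≤ δ' :=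
  comm_le (cent_two_mono le_rfl h hc)

theorem right_le {n : ℕ} {δ δ' : Con S} (h : rightSeries S n ≤ δ)
    (hc : Centralizes (k := 1) ![δ, ⊤] δ') : rightSeries S (n + 1) ≤ δ' :=
  comm_le (cent_two_mono h le_rfl hc)

/-- `δ'` is centralized by `δ` on both sides -/
def Cent2 (δ δ' : Con S) : Prop :=
  Centralizes (k := 1) ![⊤, δ] δ' ∧ Centralizes (k := 1) ![δ, ⊤] δ'

/-- the two series -/
theorem series_le {n : ℕ} {δ δ' : Con S} (h : leftSeries S n ≤ δ ∧ rightSeries S n ≤ δ)
    (hc : Cent2 δ δ') : leftSeries S (n + 1) ≤ δ' ∧ rightSeries S (n + 1) ≤ δ' :=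
  ⟨left_le h.1 hc.1, right_le h.2 hc.2⟩

/-- a chain of congruences each centralized by the previous one -/
theorem chain_le {n : ℕ} (c : ℕ → Con S) (m : ℕ)
    (h : leftSeries S n ≤ c 0 ∧ rightSeries S n ≤ c 0)
    (hc : ∀ i < m, Cent2 (c i) (c (i + 1))) :
    leftSeries S (n + m) ≤ c m ∧ rightSeries S (n + m) ≤ c m := by
  induction m with
  | zero => exact h
  | succ m ih =>
    have := ih (fun i hi => hc i (by omega))
    exact series_le this (hc m (by omega))

end Q25.SN
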