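import Mathlib
import Pool.Agent.Q25.SN.Basic

/-!
# Cubes as products of slots

A slot `(i, a, b)` has the value `a` if the coordinate `i` is `false` and `b` if it is `true`.
The coordinate `0` distinguishes the two columns, the coordinates `1, …, k` are the rows.
-/

namespace Q25.SN

universe u

/-- value of a slot -/
def sv {M : Type u} (s : ℕ × M × M) (e : ℕ → Bool) : M := if e s.1 then s.2.2 else s.2.1

/-- value of a list of slots -/
def ev {M : Type u} [Monoid M] (l : List (ℕ × M × M)) (e : ℕ → Bool) : M :=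
  (l.map fun s => sv s e).prod

@[simp] theorem ev_nil {M : Type u} [Monoid M] (e : ℕ → Bool) :
    ev ([] : List (ℕ × M × M)) e = 1 := rfl

@[simp] theorem ev_cons {M : Type u} [Monoid M] (s : ℕ × M × M) (l : List (ℕ × M × M))
    (e : ℕ → Bool) : ev (s :: l) e = sv s e * ev l e := by
  simp [ev]

@[simp] theorem ev_append {M : Type u} [Monoid M] (l l' : List (ℕ × M × M))
    (e : ℕ → Bool) : ev (l ++ l') e = ev l e * ev l' e := by
  simp [ev]

/-- set the coordinate `0` -/
def upd (e : ℕ → Bool) (z : Bool) : ℕ → Bool := Function.update e 0 z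

@[simp] theorem upd_zero (e : ℕ → Bool) (z : Bool) : upd e z 0 = z := by simp [upd]

theorem upd_pos (e : ℕ → Bool) (z : Bool) {i : ℕ} (h : 1 ≤ i) : upd e z i = e i := by
  simp only [upd]
  exact Function.update_of_ne (by omega) _ _

@[simp] theorem upd_succ (e : ℕ → Bool) (z : Bool) (i : ℕ) : upd e z (i + 1) = e (i + 1) :=
  upd_pos e z (by omega)

@[simp] theorem sv_zf {M : Type u} (a b : M) (e : ℕ → Bool) : sv (0, a, b) (upd e false) = a := by
  simp [sv]

@[simp] theorem sv_zt {M : Type u} (a b : M) (e : ℕ → Bool) : sv (0, a, b) (upd e true) = b := by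
  simp [sv]

/-- some row coordinate vanishes -/
def Hit (k : ℕ) (e : ℕ → Bool) : Prop := ∃ i, 1 ≤ i ∧ i ≤ k ∧ e i = false

/-- the all-true point -/
def one : ℕ → Bool := fun _ => true

/-- the cube condition for the list of slots `l` -/
def CubeOK {M : Type u} [Monoid M] (k : ℕ) (l : List (ℕ × M × M)) : Prop :=
  (∀ e, Hit k e → ev l (upd e false) = ev l (upd e true)) →
    ev l (upd one false) = ev l (upd one true)

/-- cube conditions for all lists of at most `n` slots -/
def SNm (k n : ℕ) (M : Type u) [Monoid M] : Prop :=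
  ∀ l : List (ℕ × M × M), l.length ≤ n → (∀ s ∈ l, s.1 ≤ k) → CubeOK k l

/-- coercion of slots -/
def coS {S : Type u} (s : ℕ × S × S) : ℕ × WithOne S × WithOne S :=
  (s.1, (s.2.1 : WithOne S), (s.2.2 : WithOne S))

/-- coercion of lists of slots -/
def co {S : Type u} (l : List (ℕ × S × S)) : List (ℕ × WithOne S × WithOne S) := l.map coS

@[simp] theorem co_nil {S : Type u} : co ([] : List (ℕ × S × S)) = [] := rfl

@[simp] theorem co_cons {S : Type u} (s : ℕ × S × S) (l : List (ℕ × S × S)) :
    co (s :: l) = coS s :: co l := rfl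

@[simp] theorem co_append {S : Type u} (l l' : List (ℕ × S × S)) :
    co (l ++ l') = co l ++ co l' := by simp [co]

theorem sv_coS {S : Type u} (s : ℕ × S × S) (e : ℕ → Bool) :
    sv (coS s) e = (sv s e : S) := by
  cases h : e s.1 <;> simp [sv, coS, h]

/-- cube conditions for slots in a semigroup -/
def SNs (k : ℕ) (S : Type u) [Semigroup S] : Prop :=
  ∀ l : List (ℕ × S × S), (∀ s ∈ l, s.1 ≤ k) → CubeOK k (co l)

/-- the point of `ℕ → Bool` given by a row and a column -/
def toE {k : ℕ} (ε : Fin k → Bool) (z : Bool) : ℕ → Bool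
  | 0 => z
  | i + 1 => if h : i < k then ε ⟨i, h⟩ else true

theorem toE_upd {k : ℕ} (ε : Fin k → Bool) (z w : Bool) : upd (toE ε z) w = toE ε w := by
  funext i
  cases i with
  | zero => simp [toE]
  | succ i => simp [toE]

theorem toE_one {k : ℕ} (z : Bool) : toE (fun _ : Fin k => true) z = upd one z := by
  funext i
  cases i with
  | zero => simp [toE]
  | succ i => simp [toE, one]

theorem toE_of {k : ℕ} (e : ℕ → Bool) (z : Bool) (i : ℕ) (h : i ≤ k) :
    toE (fun j : Fin k => e (j + 1)) z i = upd e z i := by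
  cases i with
  | zero => simp [toE]
  | succ i => simp [toE]; intro h'; omega

variable {S : Type u} [Semigroup S]

theorem single_mem {k : ℕ} (s : ℕ × S × S) (hs : s.1 ≤ k) :
    (fun ε => (sv s (toE ε false), sv s (toE ε true)) : Mat S k) ∈
      mats (k := k) (fun _ => (⊤ : Con S)) := by
  obtain ⟨i, a, b⟩ := s
  cases i with
  | zero =>
    refine Subsemigroup.subset_closure (Or.inr ⟨a, b, trivial, ?_⟩)
    funext ε
    simp [sv, toE]
  | succ i =>
    have hi : i < k := hs
    refine Subsemigroup.subset_closure (Or.inl ⟨⟨i, hi⟩, a, b, trivial, ?_⟩)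
    funext ε
    simp only [sv, toE, hi, dite_true]
    split <;> rfl

theorem list_mem {k : ℕ} (s : ℕ × S × S) (l : List (ℕ × S × S)) (hs : s.1 ≤ k)
    (hl : ∀ t ∈ l, t.1 ≤ k) :
    ∃ x ∈ mats (k := k) (fun _ => (⊤ : Con S)), ∀ ε,
      ((x ε).1 : WithOne S) = ev (co (s :: l)) (toE ε false) ∧
      ((x ε).2 : WithOne S) = ev (co (s :: l)) (toE ε true) := by
  induction l generalizing s with
  | nil =>
    refine ⟨_, single_mem s hs, fun ε => ?_⟩
    simp [sv_coS]
  | cons t l ih =>
    obtain ⟨x, hx, h⟩ := ih t (hl t (by simp)) (fun r hr => hl r (by simp [hr]))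
    refine ⟨_, Subsemigroup.mul_mem _ (single_mem s hs) hx, fun ε => ?_⟩
    constructor
    · rw [co_cons, ev_cons, sv_coS, ← (h ε).1]
      simp
    · rw [co_cons, ev_cons, sv_coS, ← (h ε).2]
      simp

theorem super_SNs {k : ℕ} (h : Supernilpotent k S) : SNs k S := by
  intro l hl hrow
  cases l with
  | nil => simp
  | cons s l =>
    obtain ⟨x, hx, hev⟩ := list_mem s l (hl s (by simp)) (fun t ht => hl t (by simp [ht]))
    have hc : Centralizes (k := k) (fun _ => (⊤ : Con S)) ⊥ := by
      have := (commutator_isLeast (k := k) (fun _ => (⊤ : Con S))).1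
      unfold Supernilpotent at h
      rw [h] at this
      exact this
    have h1 : (x fun _ => true).1 = (x fun _ => true).2 := by
      refine hc x hx fun ε hε => ?_
      have : ∃ i, ε i = false := by
        by_contra hn
        push Not at hn
        exact hε (funext fun i => by simpa using hn i)
      obtain ⟨i, hi⟩ := this
      have hh : Hit k (toE ε true) := ⟨i + 1, by omega, i.2, by simp [toE, hi]⟩
      have := hrow _ hh
      rw [toE_upd, toE_upd, ← (hev ε).1, ← (hev ε).2] at this
      exact WithOne.coe_inj.mp this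
    rw [← toE_one (k := k), ← toE_one (k := k), ← (hev _).1, ← (hev _).2, h1]

theorem ev_co_ne {M : Type u} [Monoid M] (s : ℕ × M × M) (l : List (ℕ × M × M))
    (e : ℕ → Bool) : ev (co (s :: l)) e = ((ev (s :: l) e : M) : WithOne M) := by
  induction l generalizing s with
  | nil => simp [sv_coS]
  | cons t l ih =>
    rw [co_cons, ev_cons, ih t, sv_coS, ev_cons s]
    simp

theorem super_SNm {M : Type u} [Monoid M] {k : ℕ} (h : Supernilpotent k M) (n : ℕ) :
    SNm k n M := by
  intro l _ hl hrow
  cases l with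
  | nil => simp
  | cons s l =>
    have := super_SNs h (s :: l) hl (fun e he => by rw [ev_co_ne, ev_co_ne, hrow e he])
    rw [ev_co_ne, ev_co_ne] at this
    exact WithOne.coe_inj.mp this

end Q25.SN
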