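import Mathlib
import Pool.Agent.Q25.SN.Slots

/-!
# Cancellation from cube conditions
-/

namespace Q25.SN

universe u

section monoid

variable {M : Type u} [Monoid M]

theorem all_one (a : M) (e : ℕ → Bool) (L : List ℕ) (h : ∀ i ∈ L, e (i + 1) = true) :
    ev (L.map fun i => (i + 1, a, (1 : M))) e = 1 := by
  induction L with
  | nil => rfl
  | cons i L ih =>
    have h1 := h i (by simp)
    have h2 := ih fun j hj => h j (by simp [hj])
    rw [List.map_cons, ev_cons, h2]
    simp [sv, h1]

theorem hit_left {a u v : M} (hh : a * u = a * v) (e : ℕ → Bool) (L : List ℕ)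
    (h : ∃ i ∈ L, e (i + 1) = false) :
    ev (L.map fun i => (i + 1, a, (1 : M))) e * u =
      ev (L.map fun i => (i + 1, a, (1 : M))) e * v := by
  induction L with
  | nil => obtain ⟨i, hi, _⟩ := h; simp at hi
  | cons i L ih =>
    rw [List.map_cons, ev_cons]
    by_cases hL : ∃ i ∈ L, e (i + 1) = false
    · rw [mul_assoc, ih hL, mul_assoc]
    · have h1 : ∀ i ∈ L, e (i + 1) = true := by
        intro j hj
        by_contra hne
        exact hL ⟨j, hj, by simpa using hne⟩
      have h2 : e (i + 1) = false := by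
        obtain ⟨j, hj, hj'⟩ := h
        rcases List.mem_cons.mp hj with rfl | hj
        · exact hj'
        · exact absurd ⟨j, hj, hj'⟩ hL
      rw [all_one a e L h1]
      simp [sv, h2, hh]

theorem hit_right {a u v : M} (hh : u * a = v * a) (e : ℕ → Bool) (L : List ℕ)
    (h : ∃ i ∈ L, e (i + 1) = false) :
    u * ev (L.map fun i => (i + 1, a, (1 : M))) e =
      v * ev (L.map fun i => (i + 1, a, (1 : M))) e := by
  induction L with
  | nil => obtain ⟨i, hi, _⟩ := h; simp at hi
  | cons i L ih =>
    rw [List.map_cons, ev_cons]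
    by_cases h2 : e (i + 1) = false
    · simp only [sv, h2]
      simp only [Bool.false_eq_true, if_false]
      rw [← mul_assoc, hh, mul_assoc]
    · have h3 : e (i + 1) = true := by simpa using h2
      simp only [sv, h3, if_true, one_mul]
      apply ih
      obtain ⟨j, hj, hj'⟩ := h
      rcases List.mem_cons.mp hj with rfl | hj
      · exact absurd hj' h2
      · exact ⟨j, hj, hj'⟩

theorem hit_range {k : ℕ} {e : ℕ → Bool} (h : Hit k e) (z : Bool) :
    ∃ i ∈ List.range k, upd e z (i + 1) = false := by
  obtain ⟨i, h1, h2, h3⟩ := h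
  obtain ⟨j, rfl⟩ : ∃ j, i = j + 1 := ⟨i - 1, by omega⟩
  exact ⟨j, by simp; omega, by simpa using h3⟩

theorem ev_ups (a : M) (L : List ℕ) (e : ℕ → Bool) (z w : Bool) :
    ev (L.map fun i => (i + 1, a, (1 : M))) (upd e z) =
      ev (L.map fun i => (i + 1, a, (1 : M))) (upd e w) := by
  induction L with
  | nil => rfl
  | cons i L ih => rw [List.map_cons, ev_cons, ev_cons, ih]; simp [sv]

/-- left cancellation -/
theorem SNm.left_cancel {k n : ℕ} (h : SNm k n M) (hn : k + 1 ≤ n) {a u v : M}
    (hh : a * u = a * v) : u = v := by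
  have := h ((List.range k).map (fun i => (i + 1, a, (1 : M))) ++ [(0, u, v)]) (by simpa using hn)
    (by
      intro s hs
      rcases List.mem_append.mp hs with hs | hs
      · obtain ⟨i, hi, rfl⟩ := List.mem_map.mp hs
        have := List.mem_range.mp hi
        simp; omega
      · rw [List.mem_singleton.mp hs]; simp)
    (by
      intro e he
      rw [ev_append, ev_append, ev_ups a _ e true false]
      simp only [ev_cons, ev_nil, mul_one, sv, upd_zero]
      simp only [Bool.false_eq_true, if_false, if_true]
      exact hit_left hh _ _ (hit_range he _))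
  rw [ev_append, ev_append, ev_ups a _ one true false,
    all_one a (upd one false) _ (fun i _ => by simp [one])] at this
  simpa [sv] using this

/-- right cancellation -/
theorem SNm.right_cancel {k n : ℕ} (h : SNm k n M) (hn : k + 1 ≤ n) {a u v : M}
    (hh : u * a = v * a) : u = v := by
  have := h ([(0, u, v)] ++ (List.range k).map (fun i => (i + 1, a, (1 : M))))
    (by simpa [Nat.add_comm] using hn)
    (by
      intro s hs
      rcases List.mem_append.mp hs with hs | hs
      · rw [List.mem_singleton.mp hs]; simp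
      · obtain ⟨i, hi, rfl⟩ := List.mem_map.mp hs
        have := List.mem_range.mp hi
        simp; omega)
    (by
      intro e he
      rw [ev_append, ev_append, ev_ups a _ e true false]
      simp only [ev_cons, ev_nil, mul_one, sv, upd_zero]
      simp only [Bool.false_eq_true, if_false, if_true]
      exact hit_right hh _ _ (hit_range he _))
  rw [ev_append, ev_append, ev_ups a _ one true false,
    all_one a (upd one false) _ (fun i _ => by simp [one])] at this
  simpa [sv] using this

end monoid

section semigroup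

variable {S : Type u} [Semigroup S]

/-- product of a list of elements of `S` in `S¹` -/
def lp (l : List S) : WithOne S := (l.map fun s => (s : WithOne S)).prod

@[simp] theorem lp_nil : lp ([] : List S) = 1 := rfl
@[simp] theorem lp_cons (s : S) (l : List S) : lp (s :: l) = s * lp l := by simp [lp]
@[simp] theorem lp_append (l l' : List S) : lp (l ++ l') = lp l * lp l' := by simp [lp]

/-- `w` is a product of at least `n` elements of `S` -/
def Len (n : ℕ) (w : WithOne S) : Prop := ∃ l : List S, n ≤ l.length ∧ w = lp l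

theorem Len.mono {n m : ℕ} {w : WithOne S} (h : Len n w) (hm : m ≤ n) : Len m w := by
  obtain ⟨l, hl, e⟩ := h
  exact ⟨l, by omega, e⟩

theorem Len.mul {n m : ℕ} {w w' : WithOne S} (h : Len n w) (h' : Len m w') :
    Len (n + m) (w * w') := by
  obtain ⟨l, hl, rfl⟩ := h
  obtain ⟨l', hl', rfl⟩ := h'
  exact ⟨l ++ l', by simp; omega, by simp⟩

theorem len_zero (w : WithOne S) : Len 0 w := by
  rcases eq_or_ne w 1 with rfl | h
  · exact ⟨[], by simp, rfl⟩
  · obtain ⟨s, rfl⟩ := WithOne.ne_one_iff_exists.mp h
    exact ⟨[s], by simp, by simp⟩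

theorem len_one (s : S) : Len 1 (s : WithOne S) := ⟨[s], by simp, by simp⟩

theorem Len.mul_left {n : ℕ} {w : WithOne S} (h : Len n w) (x : WithOne S) : Len n (x * w) :=
  ((len_zero x).mul h).mono (by omega)

theorem Len.mul_right {n : ℕ} {w : WithOne S} (h : Len n w) (x : WithOne S) : Len n (w * x) :=
  (h.mul (len_zero x)).mono (by omega)

theorem len_coe {n : ℕ} (hn : 1 ≤ n) {w : WithOne S} (h : Len n w) : ∃ s : S, w = s := by
  obtain ⟨l, hl, rfl⟩ := h
  cases l with
  | nil => simp at hl; omega
  | cons s l =>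
    clear hl
    induction l generalizing s with
    | nil => exact ⟨s, by simp⟩
    | cons t l ih =>
      obtain ⟨r, hr⟩ := ih t
      exact ⟨s * r, by rw [lp_cons, hr]; simp⟩

/-- slots for left cancellation -/
def slotsL : List S → ℕ → S → List (ℕ × S × S)
  | [], _, _ => []
  | b :: bs, i, a => (i + 1, a * b, b) :: slotsL bs (i + 1) (a * b)

theorem slotsL_dir (bs : List S) (i : ℕ) (a : S) :
    ∀ s ∈ slotsL bs i a, 1 ≤ s.1 ∧ s.1 ≤ i + bs.length := by
  induction bs generalizing i a with
  | nil => intro s hs; simp [slotsL] at hs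
  | cons b bs ih =>
    intro s hs
    rcases List.mem_cons.mp hs with rfl | hs
    · simp only [List.length_cons]; omega
    · have := ih (i + 1) (a * b) s hs
      simp only [List.length_cons]; omega

theorem slotsL_aux1 (e : ℕ → Bool) (bs : List S) (i : ℕ) (a : S) (Q r : WithOne S)
    (hQ : Q = r * a) : ∃ r', Q * ev (co (slotsL bs i a)) e = r' * (a * lp bs) := by
  induction bs generalizing i a Q r with
  | nil => exact ⟨r, by simp [slotsL, hQ]⟩
  | cons b bs ih =>
    rw [slotsL, co_cons, ev_cons, sv_coS, ← mul_assoc]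
    cases h : e (i + 1) with
    | false =>
      obtain ⟨r', hr'⟩ := ih (i + 1) (a * b) (Q * ((a * b : S) : WithOne S)) Q rfl
      refine ⟨r', ?_⟩
      have hs : sv (i + 1, a * b, b) e = a * b := by simp [sv, h]
      rw [hs, hr']
      simp [mul_assoc]
    | true =>
      obtain ⟨r', hr'⟩ := ih (i + 1) (a * b) (Q * (b : WithOne S)) r
        (by rw [hQ]; simp [mul_assoc])
      refine ⟨r', ?_⟩
      have hs : sv (i + 1, a * b, b) e = b := by simp [sv, h]
      rw [hs, hr']
      simp [mul_assoc]

theorem slotsL_aux2 (e : ℕ → Bool) (bs : List S) (i : ℕ) (a : S) (Q : WithOne S)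
    (h : ∃ j, i + 1 ≤ j ∧ j ≤ i + bs.length ∧ e j = false) :
    ∃ r', Q * ev (co (slotsL bs i a)) e = r' * (a * lp bs) := by
  induction bs generalizing i a Q with
  | nil => obtain ⟨j, h1, h2, _⟩ := h; simp at h2; omega
  | cons b bs ih =>
    rw [slotsL, co_cons, ev_cons, sv_coS, ← mul_assoc]
    cases hi : e (i + 1) with
    | false =>
      obtain ⟨r', hr'⟩ := slotsL_aux1 e bs (i + 1) (a * b) (Q * ((a * b : S) : WithOne S)) Q rfl
      refine ⟨r', ?_⟩
      have hs : sv (i + 1, a * b, b) e = a * b := by simp [sv, hi]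
      rw [hs, hr']
      simp [mul_assoc]
    | true =>
      have h' : ∃ j, i + 1 + 1 ≤ j ∧ j ≤ i + 1 + bs.length ∧ e j = false := by
        obtain ⟨j, h1, h2, h3⟩ := h
        have : j ≠ i + 1 := by rintro rfl; rw [hi] at h3; exact absurd h3 (by decide)
        simp at h2
        exact ⟨j, by omega, by omega, h3⟩
      obtain ⟨r', hr'⟩ := ih (i + 1) (a * b) (Q * (b : WithOne S)) h'
      refine ⟨r', ?_⟩
      have hs : sv (i + 1, a * b, b) e = b := by simp [sv, hi]
      rw [hs, hr']
      simp [mul_assoc]

theorem slotsL_one (e : ℕ → Bool) (he : ∀ j, 1 ≤ j → e j = true) (bs : List S) (i : ℕ) (a : S) :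
    ev (co (slotsL bs i a)) e = lp bs := by
  induction bs generalizing i a with
  | nil => rfl
  | cons b bs ih =>
    rw [slotsL, co_cons, ev_cons, sv_coS, ih]
    have hs : sv (i + 1, a * b, b) e = b := by simp [sv, he (i + 1) (by omega)]
    rw [hs, lp_cons]

theorem ev_upd_of_pos (l : List (ℕ × S × S)) (h : ∀ s ∈ l, 1 ≤ s.1) (e : ℕ → Bool) (z w : Bool) :
    ev (co l) (upd e z) = ev (co l) (upd e w) := by
  induction l with
  | nil => rfl
  | cons s l ih =>
    rw [co_cons, ev_cons, ev_cons, ih fun t ht => h t (by simp [ht]), sv_coS, sv_coS]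
    have h1 := h s (by simp)
    simp only [sv, upd_pos _ _ h1]

theorem split_len {n : ℕ} {c : WithOne S} (h : Len (n + 1) c) :
    (∃ (bs : List S) (r : WithOne S), bs.length = n ∧ c = lp bs * r ∧ Len 1 r) ∧
    (∃ (bs : List S) (r : WithOne S), bs.length = n ∧ c = r * lp bs ∧ Len 1 r) := by
  obtain ⟨l, hl, rfl⟩ := h
  constructor
  · refine ⟨l.take n, lp (l.drop n), by simp; omega, ?_, ⟨l.drop n, by simp; omega, rfl⟩⟩
    rw [← lp_append, List.take_append_drop]
  · refine ⟨l.drop (l.length - n), lp (l.take (l.length - n)), by simp; omega, ?_,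
      ⟨l.take (l.length - n), by simp; omega, rfl⟩⟩
    rw [← lp_append, List.take_append_drop]

/-- left cancellation up to a long common factor -/
theorem SNs.lc {k : ℕ} (h : SNs k S) {c : WithOne S} (hc : Len (k + 1) c) {x : S}
    {u v : WithOne S} (hh : x * c * u = x * c * v) : c * u = c * v := by
  obtain ⟨bs, r, hbs, rfl, hr⟩ := (split_len hc).1
  obtain ⟨U, hU⟩ := len_coe le_rfl (hr.mul_right u)
  obtain ⟨V, hV⟩ := len_coe le_rfl (hr.mul_right v)
  have hpos : ∀ s ∈ slotsL bs 0 x, 1 ≤ s.1 := fun s hs => (slotsL_dir bs 0 x s hs).1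
  have := h (slotsL bs 0 x ++ [(0, U, V)])
    (by
      intro s hs
      rcases List.mem_append.mp hs with hs | hs
      · have := (slotsL_dir bs 0 x s hs).2
        omega
      · rw [List.mem_singleton.mp hs]; simp)
    (by
      intro e he
      obtain ⟨i, h1, h2, h3⟩ := he
      obtain ⟨r', hr'⟩ := slotsL_aux2 (upd e false) bs 0 x 1
        ⟨i, by omega, by omega, by rw [upd_pos _ _ h1]; exact h3⟩
      rw [one_mul] at hr'
      rw [co_append, ev_append, ev_append, ev_upd_of_pos _ hpos e true false, hr']
      simp only [co_cons, co_nil, ev_cons, ev_nil, mul_one, sv_coS, sv_zf, sv_zt]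
      rw [← hU, ← hV]
      calc r' * (x * lp bs) * (r * u) = r' * (x * (lp bs * r) * u) := by simp only [mul_assoc]
        _ = r' * (x * (lp bs * r) * v) := by rw [hh]
        _ = _ := by simp only [mul_assoc])
  rw [co_append, ev_append, ev_append, slotsL_one _ (fun j hj => by rw [upd_pos _ _ hj]; rfl),
    slotsL_one _ (fun j hj => by rw [upd_pos _ _ hj]; rfl)] at this
  simp only [co_cons, co_nil, ev_cons, ev_nil, mul_one, sv_coS, sv_zf, sv_zt] at this
  rw [← hU, ← hV] at this
  simpa only [mul_assoc] using this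

/-- product with a last factor -/
def accR : List S → S → S
  | [], x => x
  | b :: bs, x => b * accR bs x

theorem accR_eq (bs : List S) (x : S) : ((accR bs x : S) : WithOne S) = lp bs * (x : WithOne S) := by
  induction bs with
  | nil => simp [accR]
  | cons b bs ih => simp [accR, ih, mul_assoc]

/-- slots for right cancellation -/
def slotsR (x : S) : List S → ℕ → List (ℕ × S × S)
  | [], _ => []
  | b :: bs, i => (i + 1, b * accR bs x, b) :: slotsR x bs (i + 1)

theorem slotsR_dir (x : S) (bs : List S) (i : ℕ) :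
    ∀ s ∈ slotsR x bs i, 1 ≤ s.1 ∧ s.1 ≤ i + bs.length := by
  induction bs generalizing i with
  | nil => intro s hs; simp [slotsR] at hs
  | cons b bs ih =>
    intro s hs
    rcases List.mem_cons.mp hs with rfl | hs
    · simp only [List.length_cons]; omega
    · have := ih (i + 1) s hs
      simp only [List.length_cons]; omega

theorem slotsR_aux (x : S) (e : ℕ → Bool) (bs : List S) (i : ℕ)
    (h : ∃ j, i + 1 ≤ j ∧ j ≤ i + bs.length ∧ e j = false) :
    ∃ r', ev (co (slotsR x bs i)) e = lp bs * x * r' := by
  induction bs generalizing i with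
  | nil => obtain ⟨j, h1, h2, _⟩ := h; simp at h2; omega
  | cons b bs ih =>
    rw [slotsR, co_cons, ev_cons, sv_coS]
    cases hi : e (i + 1) with
    | false =>
      have hs : sv (i + 1, b * accR bs x, b) e = b * accR bs x := by simp [sv, hi]
      rw [hs]
      exact ⟨_, by rw [WithOne.coe_mul, accR_eq, lp_cons]; simp only [mul_assoc]; rfl⟩
    | true =>
      have h' : ∃ j, i + 1 + 1 ≤ j ∧ j ≤ i + 1 + bs.length ∧ e j = false := by
        obtain ⟨j, h1, h2, h3⟩ := h
        have : j ≠ i + 1 := by rintro rfl; rw [hi] at h3; exact absurd h3 (by decide)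
        simp at h2
        exact ⟨j, by omega, by omega, h3⟩
      obtain ⟨r', hr'⟩ := ih (i + 1) h'
      have hs : sv (i + 1, b * accR bs x, b) e = b := by simp [sv, hi]
      rw [hs, hr']
      exact ⟨r', by rw [lp_cons]; simp only [mul_assoc]⟩

theorem slotsR_one (x : S) (e : ℕ → Bool) (he : ∀ j, 1 ≤ j → e j = true) (bs : List S) (i : ℕ) :
    ev (co (slotsR x bs i)) e = lp bs := by
  induction bs generalizing i with
  | nil => rfl
  | cons b bs ih =>
    rw [slotsR, co_cons, ev_cons, sv_coS, ih]
    have hs : sv (i + 1, b * accR bs x, b) e = b := by simp [sv, he (i + 1) (by omega)]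
    rw [hs, lp_cons]

/-- right cancellation up to a long common factor -/
theorem SNs.rc {k : ℕ} (h : SNs k S) {c : WithOne S} (hc : Len (k + 1) c) {x : S}
    {u v : WithOne S} (hh : u * c * x = v * c * x) : u * c = v * c := by
  obtain ⟨bs, r, hbs, rfl, hr⟩ := (split_len hc).2
  obtain ⟨U, hU⟩ := len_coe le_rfl (hr.mul_left u)
  obtain ⟨V, hV⟩ := len_coe le_rfl (hr.mul_left v)
  have hpos : ∀ s ∈ slotsR x bs 0, 1 ≤ s.1 := fun s hs => (slotsR_dir x bs 0 s hs).1
  have := h ((0, U, V) :: slotsR x bs 0)
    (by
      intro s hs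
      rcases List.mem_cons.mp hs with rfl | hs
      · simp
      · have := (slotsR_dir x bs 0 s hs).2
        omega)
    (by
      intro e he
      obtain ⟨i, h1, h2, h3⟩ := he
      obtain ⟨r', hr'⟩ := slotsR_aux x (upd e false) bs 0
        ⟨i, by omega, by omega, by rw [upd_pos _ _ h1]; exact h3⟩
      rw [co_cons, ev_cons, ev_cons, ev_upd_of_pos _ hpos e true false, hr']
      simp only [sv_coS, sv_zf, sv_zt]
      rw [← hU, ← hV]
      calc u * r * (lp bs * x * r') = u * (r * lp bs) * x * r' := by simp only [mul_assoc]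
        _ = v * (r * lp bs) * x * r' := by rw [hh]
        _ = _ := by simp only [mul_assoc])
  rw [co_cons, ev_cons, ev_cons, slotsR_one x _ (fun j hj => by rw [upd_pos _ _ hj]; rfl),
    slotsR_one x _ (fun j hj => by rw [upd_pos _ _ hj]; rfl)] at this
  simp only [sv_coS, sv_zf, sv_zt] at this
  rw [← hU, ← hV] at this
  simpa only [mul_assoc] using this

end semigroup

end Q25.SN
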