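import Mathlib
import Pool.Agent.Q25.SN.Cancel

/-!
# The group of left fractions
-/

namespace Q25.SN

universe u

section frac

variable {M : Type u} [Monoid M]

theorem exists_frac (hl : ∀ a u v : M, a * u = a * v → u = v)
    (hr : ∀ a u v : M, u * a = v * a → u = v)
    (ho : ∀ a b : M, ∃ u v, u * a = v * b) :
    ∃ (G : Type u) (_ : Group G) (ι : M →* G), Function.Injective ι ∧
      ∀ g : G, ∃ a b : M, g = (ι a)⁻¹ * ι b := by
  classical
  letI : OreLocalization.OreSet (⊤ : Submonoid M) :=
    { ore_right_cancel := fun r₁ r₂ s h => ⟨1, by rw [hr _ _ _ h]⟩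
      oreNum := fun r s => (ho r s).choose_spec.choose
      oreDenom := fun r s => ⟨(ho r s).choose, trivial⟩
      ore_eq := fun r s => (ho r s).choose_spec.choose_spec }
  let L := OreLocalization (⊤ : Submonoid M) M
  have hu : ∀ a : M, (OreLocalization.numeratorHom a : L) *
      ((1 : M) /ₒ (⟨a, trivial⟩ : (⊤ : Submonoid M))) = 1 := by
    intro a
    rw [OreLocalization.numeratorHom_apply]
    exact OreLocalization.mul_inv (⟨a, trivial⟩ : (⊤ : Submonoid M)) 1
  have hu' : ∀ a : M, ((1 : M) /ₒ (⟨a, trivial⟩ : (⊤ : Submonoid M))) *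
      (OreLocalization.numeratorHom a : L) = 1 := by
    intro a
    rw [OreLocalization.numeratorHom_apply]
    exact OreLocalization.mul_inv 1 (⟨a, trivial⟩ : (⊤ : Submonoid M))
  let ι : M →* Lˣ :=
    { toFun := fun a => ⟨OreLocalization.numeratorHom a, _, hu a, hu' a⟩
      map_one' := Units.ext (map_one OreLocalization.numeratorHom)
      map_mul' := fun a b => Units.ext (map_mul OreLocalization.numeratorHom a b) }
  refine ⟨Lˣ, inferInstance, ι, ?_, ?_⟩
  · intro a b h
    have h1 : (OreLocalization.numeratorHom a : L) = OreLocalization.numeratorHom b :=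
      congrArg Units.val h
    rw [OreLocalization.numeratorHom_apply, OreLocalization.numeratorHom_apply,
      OreLocalization.oreDiv_eq_iff] at h1
    obtain ⟨u, v, h2, h3⟩ := h1
    have h4 : (u : M) = v := by simpa using h3
    have h5 : (u : M) * b = v * a := h2
    rw [h4] at h5
    exact (hl _ _ _ h5).symm
  · intro g
    obtain ⟨r, s, hrs⟩ : ∃ (r : M) (s : (⊤ : Submonoid M)), (g : L) = r /ₒ s := by
      refine OreLocalization.ind (fun r s => ?_) (g : L)
      exact ⟨r, s, rfl⟩
    refine ⟨s, r, ?_⟩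
    rw [eq_inv_mul_iff_mul_eq]
    ext
    change (OreLocalization.numeratorHom (s : M) : L) * (g : L) = OreLocalization.numeratorHom r
    rw [hrs, OreLocalization.numeratorHom_apply, OreLocalization.numeratorHom_apply]
    exact OreLocalization.mul_cancel

end frac

section group

variable {M : Type u} [Monoid M] {G : Type u} [Group G]

theorem common_den (ι : M →* G) (hf : ∀ g : G, ∃ a b : M, g = (ι a)⁻¹ * ι b)
    (ho : ∀ a b : M, ∃ u v, u * a = v * b) (g h : G) :
    ∃ (α : G) (β β' : M), g = α * ι β ∧ h = α * ι β' := by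
  obtain ⟨a, b, rfl⟩ := hf g
  obtain ⟨c, d, rfl⟩ := hf h
  obtain ⟨u, v, huv⟩ := ho a c
  have h1 : (ι u) * ι a = ι v * ι c := by rw [← map_mul, huv, map_mul]
  refine ⟨(ι u * ι a)⁻¹, u * b, v * d, ?_, ?_⟩
  · simp [mul_assoc]
  · rw [h1]; simp [mul_assoc]

theorem clear_den (ι : M →* G) (hf : ∀ g : G, ∃ a b : M, g = (ι a)⁻¹ * ι b)
    (ho : ∀ a b : M, ∃ u v, u * a = v * b) (l : List (ℕ × G × G)) :
    ∃ (α : G) (l' : List (ℕ × M × M)), l'.length = l.length ∧
      (∀ s' ∈ l', ∃ s ∈ l, s'.1 = s.1) ∧ ∀ e, ev l e = α * ι (ev l' e) := by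
  induction l with
  | nil => exact ⟨1, [], rfl, by simp, by simp⟩
  | cons s l ih =>
    obtain ⟨α, l', h1, h2, h3⟩ := ih
    obtain ⟨α', β, β', h4, h5⟩ := common_den ι hf ho (s.2.1 * α) (s.2.2 * α)
    refine ⟨α', (s.1, β, β') :: l', by simp [h1], ?_, ?_⟩
    · intro s' hs'
      rcases List.mem_cons.mp hs' with rfl | hs'
      · exact ⟨s, by simp, rfl⟩
      · obtain ⟨t, ht, e⟩ := h2 s' hs'
        exact ⟨t, by simp [ht], e⟩
    · intro e
      rw [ev_cons, ev_cons, h3 e, map_mul, ← mul_assoc, ← mul_assoc]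
      congr 1
      cases h : e s.1 with
      | false => simp only [sv, h, Bool.false_eq_true, if_false]; exact h4
      | true => simp only [sv, h, if_true]; exact h5

theorem SNm.frac {k n : ℕ} (h : SNm k n M) (ι : M →* G) (hi : Function.Injective ι)
    (hf : ∀ g : G, ∃ a b : M, g = (ι a)⁻¹ * ι b) (ho : ∀ a b : M, ∃ u v, u * a = v * b) :
    SNm k n G := by
  intro l hl hd hrow
  obtain ⟨α, l', h1, h2, h3⟩ := clear_den ι hf ho l
  have := h l' (by omega)
    (by
      intro s' hs'
      obtain ⟨s, hs, e⟩ := h2 s' hs'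
      rw [e]; exact hd s hs)
    (by
      intro e he
      have := hrow e he
      rw [h3, h3] at this
      exact hi (mul_left_cancel this))
  rw [h3, h3, this]

/-- inverse of a list of slots -/
def invL (l : List (ℕ × G × G)) : List (ℕ × G × G) :=
  (l.map fun s => (s.1, s.2.1⁻¹, s.2.2⁻¹)).reverse

theorem ev_invL (l : List (ℕ × G × G)) (e : ℕ → Bool) : ev (invL l) e = (ev l e)⁻¹ := by
  induction l with
  | nil => simp [invL]
  | cons s l ih =>
    have : invL (s :: l) = invL l ++ [(s.1, s.2.1⁻¹, s.2.2⁻¹)] := by simp [invL]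
    rw [this, ev_append, ih, ev_cons, ev_cons, ev_nil, mul_one, mul_inv_rev]
    congr 1
    cases h : e s.1 <;> simp [sv, h]

/-- commutator words -/
def cwd (g : ℕ → G) : ℕ → List (ℕ × G × G)
  | 0 => [(0, 1, g 0)]
  | j + 1 => cwd g j ++ ([(j + 1, 1, g (j + 1))] ++ (invL (cwd g j) ++
      [(j + 1, 1, (g (j + 1))⁻¹)]))

/-- left-normed commutators -/
def lcm' (x : ℕ → G) : ℕ → G
  | 0 => x 0
  | j + 1 => lcm' x j * x (j + 1) * (lcm' x j)⁻¹ * (x (j + 1))⁻¹

/-- length of the commutator words -/
def cwlen : ℕ → ℕ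
  | 0 => 1
  | j + 1 => 2 * cwlen j + 2

theorem cwd_length (g : ℕ → G) (j : ℕ) : (cwd g j).length = cwlen j := by
  induction j with
  | zero => rfl
  | succ j ih => simp [cwd, cwlen, invL, ih]; ring

theorem cwd_dir (g : ℕ → G) (j : ℕ) : ∀ s ∈ cwd g j, s.1 ≤ j := by
  induction j with
  | zero => intro s hs; rw [cwd, List.mem_singleton] at hs; rw [hs]
  | succ j ih =>
    intro s hs
    rw [cwd] at hs
    simp only [List.mem_append, List.mem_singleton, invL, List.mem_reverse, List.mem_map] at hs
    rcases hs with hs | rfl | ⟨t, ht, rfl⟩ | rfl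
    · have := ih s hs; omega
    · simp
    · have := ih t ht; simp; omega
    · simp

theorem ev_cwd (g : ℕ → G) (j : ℕ) (e : ℕ → Bool) :
    ev (cwd g j) e = lcm' (fun i => if e i then g i else 1) j := by
  induction j with
  | zero => simp [cwd, lcm', sv]
  | succ j ih =>
    rw [cwd, ev_append, ev_append, ev_append, ev_invL, ih, lcm']
    cases h : e (j + 1) <;> simp [sv, h, mul_assoc]

theorem lcm_one (x : ℕ → G) (j : ℕ) (h : ∃ i ≤ j, x i = 1) : lcm' x j = 1 := by
  induction j with
  | zero =>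
    obtain ⟨i, hi, h⟩ := h
    have : i = 0 := by omega
    rw [this] at h; exact h
  | succ j ih =>
    rw [lcm']
    by_cases hj : x (j + 1) = 1
    · simp [hj]
    · have : lcm' x j = 1 := by
        apply ih
        obtain ⟨i, hi, h⟩ := h
        refine ⟨i, ?_, h⟩
        by_contra hn
        have : i = j + 1 := by omega
        rw [this] at h; exact hj h
      simp [this]

theorem lcm_congr (x y : ℕ → G) (j : ℕ) (h : ∀ i ≤ j, x i = y i) : lcm' x j = lcm' y j := by
  induction j with
  | zero => exact h 0 le_rfl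
  | succ j ih => rw [lcm', lcm', ih fun i hi => h i (by omega), h (j + 1) le_rfl]

theorem SNm.comm {k n : ℕ} (h : SNm k n G) (hn : cwlen k ≤ n) (g : ℕ → G) : lcm' g k = 1 := by
  have := h (cwd g k) (by rw [cwd_length]; exact hn) (cwd_dir g k)
    (by
      intro e he
      obtain ⟨i, h1, h2, h3⟩ := he
      rw [ev_cwd, ev_cwd, lcm_one _ _ ⟨i, h2, by simp [upd_pos _ _ h1, h3]⟩,
        lcm_one _ _ ⟨i, h2, by simp [upd_pos _ _ h1, h3]⟩])
  rw [ev_cwd, ev_cwd, lcm_one _ _ ⟨0, by omega, by simp⟩] at this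
  rw [← lcm_congr _ g k (fun i _ => ?_)] at *
  · exact this.symm
  · cases i <;> simp [one]

theorem SNm.ucs {k n : ℕ} (h : SNm k n G) (hn : cwlen k ≤ n) :
    Subgroup.upperCentralSeries G k = ⊤ := by
  have key : ∀ m ≤ k, ∀ g : ℕ → G, lcm' g (k - m) ∈ Subgroup.upperCentralSeries G m := by
    intro m
    induction m with
    | zero =>
      intro _ g
      rw [Nat.sub_zero, h.comm hn g]
      exact one_mem _
    | succ m ih =>
      intro hm g
      rw [Subgroup.mem_upperCentralSeries_succ_iff]
      intro y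
      have := ih (by omega) (Function.update g (k - m) y)
      have e : k - m = (k - (m + 1)) + 1 := by omega
      rw [e, lcm', ← e] at this
      rw [lcm_congr (Function.update g (k - m) y) g (k - (m + 1)) (fun i hi => by
        rw [Function.update_of_ne (by omega)])] at this
      rw [commutatorElement_def]
      simpa using this
  rw [eq_top_iff]
  intro x _
  have := key k le_rfl (fun _ => x)
  rw [Nat.sub_self] at this
  exact this

end group

end Q25.SN
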