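import Mathlib
import Pool.Agent.Q25.SN.Cancel

/-!
# Thue–Morse cubes

Explicit cubes over the free monoid on two letters all of whose rows but the last one are
balanced.
-/

namespace Q25.SN

universe u

/-- an atom `(i, c, p, q)`: the letter `c` is present at a point `e` if `q` (when `e i` is true)
respectively `p` (when `e i` is false) is true -/
abbrev Atom : Type := ℕ × Bool × Bool × Bool

/-- value of an atom -/
def av (t : Atom) (e : ℕ → Bool) : List Bool :=
  if (if e t.1 then t.2.2.2 else t.2.2.1) then [t.2.1] else []

/-- value of a list of atoms -/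
def aev (l : List Atom) (e : ℕ → Bool) : List Bool := l.flatMap fun t => av t e

@[simp] theorem aev_nil (e : ℕ → Bool) : aev [] e = [] := rfl
@[simp] theorem aev_cons (t : Atom) (l : List Atom) (e : ℕ → Bool) :
    aev (t :: l) e = av t e ++ aev l e := by simp [aev]
@[simp] theorem aev_append (l l' : List Atom) (e : ℕ → Bool) :
    aev (l ++ l') e = aev l e ++ aev l' e := by simp [aev]

/-- the substitution step with the new coordinate `n` -/
def stepA (n : ℕ) (t : Atom) : List Atom :=
  if t.2.1 then
    [(n, false, true, false), (t.1, true, t.2.2.1, t.2.2.2), (t.1, false, t.2.2.1, t.2.2.2),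
      (n, true, true, false)]
  else [(t.1, false, t.2.2.1, t.2.2.2), (t.1, true, t.2.2.1, t.2.2.2)]

/-- the Thue–Morse cubes -/
def tm : ℕ → List Atom
  | 0 => [(0, false, true, false), (0, true, true, true), (0, false, false, true)]
  | k + 1 => (tm k).flatMap (stepA (k + 1))

/-- the Thue–Morse substitution on letters -/
def phi1 (c : Bool) : List Bool := if c then [true, false] else [false, true]

/-- the Thue–Morse substitution -/
def phi (l : List Bool) : List Bool := l.flatMap phi1

/-- powers of the word `ab` -/
def abp : ℕ → List Bool
  | 0 => []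
  | n + 1 => false :: true :: abp n

theorem abp_add (m n : ℕ) : abp (m + n) = abp m ++ abp n := by
  induction m with
  | zero => simp [abp]
  | succ m ih => rw [Nat.succ_add, abp, abp, ih]; rfl

theorem abp_length (n : ℕ) : (abp n).length = 2 * n := by
  induction n with
  | zero => rfl
  | succ n ih => simp [abp, ih]; ring

theorem phi_length (l : List Bool) : (phi l).length = 2 * l.length := by
  induction l with
  | nil => rfl
  | cons c l ih =>
    have : (phi1 c).length = 2 := by cases c <;> rfl
    rw [phi, List.flatMap_cons, List.length_append, this]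
    change 2 + (phi l).length = _
    rw [ih]; simp; ring

theorem tm_dir (k : ℕ) : ∀ t ∈ tm k, t.1 ≤ k := by
  induction k with
  | zero => intro t ht; fin_cases ht <;> simp
  | succ k ih =>
    intro t ht
    obtain ⟨s, hs, ht⟩ := List.mem_flatMap.mp ht
    have := ih s hs
    unfold stepA at ht
    split at ht <;> simp only [List.mem_cons, List.not_mem_nil, or_false] at ht
    · rcases ht with rfl | rfl | rfl | rfl <;> simp <;> omega
    · rcases ht with rfl | rfl <;> simp <;> omega

theorem aev_step_true (n : ℕ) (l : List Atom) (e : ℕ → Bool) (he : e n = true) :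
    aev (l.flatMap (stepA n)) e = phi (aev l e) := by
  induction l with
  | nil => rfl
  | cons t l ih =>
    rw [List.flatMap_cons, aev_append, ih, aev_cons, phi, phi, List.flatMap_append]
    congr 1
    obtain ⟨i, c, p, q⟩ := t
    cases c <;> cases p <;> cases q <;> cases hi : e i <;> simp [stepA, av, phi1, he, hi]

/-- number of `b`-atoms -/
def nB (l : List Atom) : ℕ := l.countP fun t => t.2.1

theorem aev_step_false (n : ℕ) (l : List Atom) (e : ℕ → Bool) (he : e n = false) :
    aev (l.flatMap (stepA n)) e = abp ((aev l e).length + nB l) := by
  induction l with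
  | nil => rfl
  | cons t l ih =>
    have key : aev (stepA n t) e = abp ((av t e).length + nB [t]) := by
      obtain ⟨i, c, p, q⟩ := t
      cases c <;> cases p <;> cases q <;> cases hi : e i <;>
        simp [stepA, av, he, hi, nB, abp]
    rw [List.flatMap_cons, aev_append, ih, key, aev_cons, ← abp_add]
    congr 1
    have : nB (t :: l) = nB [t] + nB l := by
      simp only [nB, List.countP_cons, List.countP_nil]; omega
    rw [this, List.length_append]; omega

theorem tm_length (k : ℕ) (e : ℕ → Bool) :
    (aev (tm k) (upd e false)).length = (aev (tm k) (upd e true)).length := by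
  induction k with
  | zero => simp [tm, av]
  | succ k ih =>
    cases h : e (k + 1) with
    | true =>
      rw [tm, aev_step_true _ _ _ (by simpa using h), aev_step_true _ _ _ (by simpa using h),
        phi_length, phi_length, ih]
    | false =>
      rw [tm, aev_step_false _ _ _ (by simpa using h), aev_step_false _ _ _ (by simpa using h),
        ih]

theorem tm_hit (k : ℕ) (e : ℕ → Bool) (he : Hit k e) :
    aev (tm k) (upd e false) = aev (tm k) (upd e true) := by
  induction k with
  | zero => obtain ⟨i, h1, h2, _⟩ := he; omega
  | succ k ih =>
    cases h : e (k + 1) with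
    | true =>
      have : Hit k e := by
        obtain ⟨i, h1, h2, h3⟩ := he
        refine ⟨i, h1, ?_, h3⟩
        by_contra hn
        have : i = k + 1 := by omega
        rw [this, h] at h3
        exact absurd h3 (by decide)
      rw [tm, aev_step_true _ _ _ (by simpa using h), aev_step_true _ _ _ (by simpa using h),
        ih this]
    | false =>
      rw [tm, aev_step_false _ _ _ (by simpa using h), aev_step_false _ _ _ (by simpa using h),
        tm_length]

theorem tm_one (k : ℕ) : ∃ (x y x' y' : List Bool) (c : Bool),
    aev (tm k) (upd one false) = false :: x ∧ aev (tm k) (upd one true) = true :: y ∧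
    aev (tm k) (upd one false) = x' ++ [c] ∧ aev (tm k) (upd one true) = y' ++ [!c] := by
  induction k with
  | zero =>
    exact ⟨[true], [false], [false], [true], true, by simp [tm, av, one], by simp [tm, av, one],
      by simp [tm, av, one], by simp [tm, av, one]⟩
  | succ k ih =>
    obtain ⟨x, y, x', y', c, h1, h2, h3, h4⟩ := ih
    refine ⟨true :: phi x, false :: phi y, phi x' ++ [c], phi y' ++ [!c], !c, ?_, ?_, ?_, ?_⟩
    · rw [tm, aev_step_true _ _ _ (by simp [one]), h1]; rfl
    · rw [tm, aev_step_true _ _ _ (by simp [one]), h2]; rfl
    · rw [tm, aev_step_true _ _ _ (by simp [one]), h3, phi, List.flatMap_append]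
      cases c <;> simp [phi, phi1]
    · rw [tm, aev_step_true _ _ _ (by simp [one]), h4, phi, List.flatMap_append]
      cases c <;> simp [phi, phi1]

section monoid

variable {M : Type u} [Monoid M]

/-- the slot of an atom -/
def aslot (f : Bool → M) (t : Atom) : ℕ × M × M :=
  (t.1, if t.2.2.1 then f t.2.1 else 1, if t.2.2.2 then f t.2.1 else 1)

theorem ev_aslot (f : Bool → M) (l : List Atom) (e : ℕ → Bool) :
    ev (l.map (aslot f)) e = ((aev l e).map f).prod := by
  induction l with
  | nil => rfl
  | cons t l ih =>
    rw [List.map_cons, ev_cons, ih, aev_cons, List.map_append, List.prod_append]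
    congr 1
    obtain ⟨i, c, p, q⟩ := t
    cases p <;> cases q <;> cases hi : e i <;> simp [sv, aslot, av, hi]

theorem SNm.ore {k n : ℕ} (h : SNm k n M) (hn : (tm k).length ≤ n) (a b : M) :
    (∃ u v, a * u = b * v) ∧ (∃ u v, u * a = v * b) := by
  let f : Bool → M := fun c => if c then b else a
  have key := h ((tm k).map (aslot f)) (by simpa using hn)
    (by
      intro s hs
      obtain ⟨t, ht, rfl⟩ := List.mem_map.mp hs
      exact tm_dir k t ht)
    (by
      intro e he
      rw [ev_aslot, ev_aslot, tm_hit k e he])
  rw [ev_aslot, ev_aslot] at key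
  obtain ⟨x, y, x', y', c, h1, h2, h3, h4⟩ := tm_one k
  constructor
  · rw [h1, h2, List.map_cons, List.map_cons, List.prod_cons, List.prod_cons] at key
    exact ⟨_, _, key⟩
  · rw [h3, h4] at key
    simp only [List.map_append, List.map_cons, List.map_nil, List.prod_append, List.prod_cons,
      List.prod_nil, mul_one] at key
    cases c with
    | false => exact ⟨_, _, key⟩
    | true => exact ⟨_, _, key.symm⟩

end monoid

end Q25.SN
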