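import Mathlib
import Pool.Agent.Q25.SN.TM
import Pool.Agent.Q25.SN.Frac

/-!
# Supernilpotent monoids
-/

namespace Q25.SN

universe u

/-- a criterion for `Cent2` by means of shifts -/
theorem cent2_of_shift {S : Type u} [Semigroup S] {δ δ' : Con S} {Z : Type u} [Monoid Z]
    (D : S → S → Z → Prop) (d0 : ∀ a, D a a 1) (d1 : ∀ a b, δ a b → ∃ z, D a b z)
    (dm : ∀ a b a' b' z z', D a b z → D a' b' z' → D (a * a') (b * b') (z * z'))
    (d3 : ∀ a b c d z, D a b z → D c d z → δ' a b → δ' c d)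
    (d4 : ∀ a b c d z, D a c z → D b d z → δ' a b → δ' c d) : Cent2 δ δ' := by
  constructor
  · refine cent_of (fun a b c d => ∃ z, D a b z ∧ D c d z) ?_ ?_ ?_ ?_
    · intro a b _; exact ⟨1, d0 a, d0 b⟩
    · intro a b h
      obtain ⟨z, hz⟩ := d1 a b h
      exact ⟨z, hz, hz⟩
    · rintro a b c d a' b' c' d' ⟨z, h1, h2⟩ ⟨z', h1', h2'⟩
      exact ⟨z * z', dm _ _ _ _ _ _ h1 h1', dm _ _ _ _ _ _ h2 h2'⟩
    · rintro a b c d ⟨z, h1, h2⟩ h
      exact d3 a b c d z h1 h2 h
  · refine cent_of (fun a b c d => ∃ z, D a c z ∧ D b d z) ?_ ?_ ?_ ?_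
    · intro a b h
      obtain ⟨z, hz⟩ := d1 a b h
      exact ⟨z, hz, hz⟩
    · intro a b _; exact ⟨1, d0 a, d0 b⟩
    · rintro a b c d a' b' c' d' ⟨z, h1, h2⟩ ⟨z', h1', h2'⟩
      exact ⟨z * z', dm _ _ _ _ _ _ h1 h1', dm _ _ _ _ _ _ h2 h2'⟩
    · rintro a b c d ⟨z, h1, h2⟩ h
      exact d4 a b c d z h1 h2 h

section

variable {M : Type u} [Monoid M] {G : Type u} [Group G]

/-- the congruence of a normal subgroup -/
def conN (ι : M →* G) (N : Subgroup G) [N.Normal] : Con M where
  r a b := (QuotientGroup.mk (ι a) : G ⧸ N) = QuotientGroup.mk (ι b)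
  iseqv := ⟨fun _ => rfl, fun h => h.symm, fun h h' => h.trans h'⟩
  mul' := by
    intro a b c d h h'
    rw [map_mul, map_mul, QuotientGroup.mk_mul, QuotientGroup.mk_mul, h, h']

theorem conN_iff {ι : M →* G} {N : Subgroup G} [N.Normal] {a b : M} :
    conN ι N a b ↔ (QuotientGroup.mk (ι a) : G ⧸ N) = QuotientGroup.mk (ι b) := Iff.rfl

theorem central_of_ucs {j : ℕ} {z : G} (hz : z ∈ Subgroup.upperCentralSeries G (j + 1))
    (x : G ⧸ Subgroup.upperCentralSeries G j) :
    (QuotientGroup.mk z : G ⧸ Subgroup.upperCentralSeries G j) * x =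
      x * QuotientGroup.mk z := by
  induction x using QuotientGroup.induction_on with
  | H y =>
    have := Subgroup.mem_upperCentralSeries_succ_iff.mp hz y
    rw [commutatorElement_def] at this
    have h1 : (QuotientGroup.mk (z * y * z⁻¹ * y⁻¹) :
        G ⧸ Subgroup.upperCentralSeries G j) = 1 := (QuotientGroup.eq_one_iff _).mpr this
    rw [QuotientGroup.mk_mul, QuotientGroup.mk_mul, QuotientGroup.mk_mul, QuotientGroup.mk_inv,
      QuotientGroup.mk_inv] at h1
    exact eq_of_mul_inv_eq_one (by rw [mul_inv_rev, ← mul_assoc]; exact h1)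

theorem cent2_ucs (ι : M →* G) (j : ℕ) :
    Cent2 (conN ι (Subgroup.upperCentralSeries G (j + 1)))
      (conN ι (Subgroup.upperCentralSeries G j)) := by
  let Q := G ⧸ Subgroup.upperCentralSeries G j
  let f : M → Q := fun a => QuotientGroup.mk (ι a)
  have fm : ∀ a b, f (a * b) = f a * f b := by
    intro a b
    change (QuotientGroup.mk (ι (a * b)) : Q) = _
    rw [map_mul, QuotientGroup.mk_mul]
  refine cent2_of_shift (Z := Q) (fun a b z => (∀ x, z * x = x * z) ∧ f b = f a * z)
    ?_ ?_ ?_ ?_ ?_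
  · intro a; exact ⟨by simp, by simp⟩
  · intro a b h
    have h1 : (ι a)⁻¹ * ι b ∈ Subgroup.upperCentralSeries G (j + 1) :=
      QuotientGroup.eq.mp (conN_iff.mp h)
    refine ⟨QuotientGroup.mk ((ι a)⁻¹ * ι b), fun x => central_of_ucs h1 x, ?_⟩
    change (QuotientGroup.mk (ι b) : Q) = QuotientGroup.mk (ι a) * QuotientGroup.mk ((ι a)⁻¹ * ι b)
    rw [← QuotientGroup.mk_mul]
    simp
  · rintro a b a' b' z z' ⟨h1, h2⟩ ⟨h1', h2'⟩
    refine ⟨fun x => ?_, ?_⟩
    · rw [mul_assoc, h1', ← mul_assoc, h1, mul_assoc]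
    · rw [fm, fm, h2, h2']
      rw [mul_assoc (f a) z, ← mul_assoc z, h1, mul_assoc (f a'), ← mul_assoc (f a)]
  · rintro a b c d z ⟨h1, h2⟩ ⟨h1', h2'⟩ h
    have e : f a = f b := h
    have hz : z = 1 := by
      rw [← e] at h2
      exact mul_eq_left.mp h2.symm
    change f c = f d
    rw [h2', hz, mul_one]
  · rintro a b c d z ⟨h1, h2⟩ ⟨h1', h2'⟩ h
    have e : f a = f b := h
    change f c = f d
    rw [h2', h2, e]

end

/-- Supernilpotent monoids are left and right nilpotent. -/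
theorem monoid_nilp {M : Type u} [Monoid M] {d : ℕ} (h : Supernilpotent d M) :
    LeftNilpotent d M ∧ RightNilpotent d M := by
  have hs : ∀ n, SNm d n M := super_SNm h
  have ho : ∀ a b : M, ∃ u v, u * a = v * b := fun a b => ((hs _).ore le_rfl a b).2
  obtain ⟨G, _, ι, hi, hf⟩ := exists_frac (M := M)
    (fun a u v e => (hs _).left_cancel le_rfl e) (fun a u v e => (hs _).right_cancel le_rfl e) ho
  have hG : Subgroup.upperCentralSeries G d = ⊤ := ((hs _).frac ι hi hf ho).ucs le_rfl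
  have key := chain_le (S := M) (n := 0)
    (fun i => conN ι (Subgroup.upperCentralSeries G (d - i))) d
    (by
      have : conN ι (Subgroup.upperCentralSeries G (d - 0)) = ⊤ := by
        rw [eq_top_iff]
        intro a b _
        rw [conN_iff, QuotientGroup.eq, Nat.sub_zero, hG]
        trivial
      constructor
      · intro a b _
        have h2 : (⊤ : Con M) ≤ conN ι (Subgroup.upperCentralSeries G (d - 0)) := this ▸ le_rfl
        exact h2 trivial
      · intro a b _
        have h2 : (⊤ : Con M) ≤ conN ι (Subgroup.upperCentralSeries G (d - 0)) := this ▸ le_rfl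
        exact h2 trivial)
    (by
      intro i hi
      have e : d - i = (d - (i + 1)) + 1 := by omega
      simp only [e]
      exact cent2_ucs ι _)
  rw [Nat.zero_add] at key
  have hbot : conN ι (Subgroup.upperCentralSeries G (d - d)) ≤ ⊥ := by
    intro a b hab
    have h1 := QuotientGroup.eq.mp (conN_iff.mp hab)
    rw [Nat.sub_self] at h1
    have h2 : (ι a)⁻¹ * ι b = 1 := by simpa using h1
    exact hi (inv_mul_eq_one.mp h2)
  exact ⟨le_bot_iff.mp (key.1.trans hbot), le_bot_iff.mp (key.2.trans hbot)⟩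

end Q25.SN
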