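import Mathlib
import Pool.Agent.Q25.SN.Mon

/-!
# Variants of a supernilpotent semigroup

For an element `W` which is a product of many factors, the variant `x ∘ y = x W y` with an
adjoined identity satisfies the cube conditions for lists of few slots, once its elements are
compared inside `W S W`.
-/

namespace Q25.SN

universe u

variable {S : Type u} [Semigroup S]

/-- the variant of `S` by `W` -/
def Variant (_W : S) : Type u := S

/-- the underlying element of `S` -/
def ofV {W : S} (x : Variant W) : S := x

/-- an element of `S` as an element of the variant -/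
def toV (W : S) (x : S) : Variant W := x

instance (W : S) : Semigroup (Variant W) where
  mul x y := toV W (ofV x * W * ofV y)
  mul_assoc x y z := by
    change toV W (ofV x * W * ofV y * W * ofV z) = toV W (ofV x * W * (ofV y * W * ofV z))
    simp only [mul_assoc]

theorem ofV_mul {W : S} (x y : Variant W) : ofV (x * y) = ofV x * W * ofV y := rfl

/-- the variant with an adjoined identity -/
abbrev NW (W : S) : Type u := WithOne (Variant W)

/-- left translation as a homomorphism -/
def tau (W : S) : NW W →* WithOne S :=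
  WithOne.lift
    { toFun := fun x : Variant W => (W : WithOne S) * ((ofV x : S) : WithOne S)
      map_mul' := by
        intro x y
        rw [ofV_mul, WithOne.coe_mul, WithOne.coe_mul]
        simp only [mul_assoc] }

/-- right translation as a homomorphism -/
def tau' (W : S) : NW W →* WithOne S :=
  WithOne.lift
    { toFun := fun x : Variant W => ((ofV x : S) : WithOne S) * (W : WithOne S)
      map_mul' := by
        intro x y
        rw [ofV_mul, WithOne.coe_mul, WithOne.coe_mul]
        simp only [mul_assoc] }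

/-- an element of `S` in the variant -/
def iv (W : S) (x : S) : NW W := ((toV W x : Variant W) : WithOne (Variant W))

theorem tau_iv (W x : S) : tau W (iv W x) = W * x := by
  rw [tau, iv, WithOne.lift_coe]; rfl

theorem tau'_iv (W x : S) : tau' W (iv W x) = x * W := by
  rw [tau', iv, WithOne.lift_coe]; rfl

theorem nw_cases (W : S) (v : NW W) : v = 1 ∨ ∃ x : S, v = iv W x := by
  rcases eq_or_ne v 1 with h | h
  · exact Or.inl h
  · obtain ⟨x, hx⟩ := WithOne.ne_one_iff_exists.mp h
    exact Or.inr ⟨x, hx.symm⟩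

theorem tau_tau' (W : S) (v : NW W) : tau W v * W = W * tau' W v := by
  rcases nw_cases W v with rfl | ⟨x, rfl⟩
  · simp
  · rw [tau_iv, tau'_iv, mul_assoc]

theorem iv_mul (W x y : S) : iv W x * iv W y = iv W (x * W * y) := rfl

/-- the value of a padded slot -/
theorem pad_val (W : S) (v : NW W) (w : S) (ws : List S) (pre : WithOne S)
    (hW : (W : WithOne S) = pre * lp (w :: ws)) :
    ∃ v' : S, ∀ (r : WithOne S) (y : NW W), (pre * w) * r = tau W y * W →
      pre * (v' * r) = tau W (v * y) * W := by
  rcases nw_cases W v with rfl | ⟨x, rfl⟩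
  · refine ⟨w, fun r y h => ?_⟩
    rw [one_mul, ← h, mul_assoc]
  · obtain ⟨v', hv'⟩ := len_coe le_rfl
      (((len_one x).mul_left (lp (w :: ws))).mul_right (pre * w))
    refine ⟨v', fun r y h => ?_⟩
    rw [← hv', map_mul, tau_iv]
    calc pre * (lp (w :: ws) * x * (pre * w) * r)
        = (pre * lp (w :: ws)) * x * ((pre * w) * r) := by simp only [mul_assoc]
      _ = W * x * (tau W y * W) := by rw [← hW, h]
      _ = _ := by simp only [mul_assoc]

theorem pad (W : S) (ws : List S) (l : List (ℕ × NW W × NW W)) (hl : l.length ≤ ws.length)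
    (pre : WithOne S) (hW : (W : WithOne S) = pre * lp ws) :
    ∃ l' : List (ℕ × S × S), (∀ s' ∈ l', s'.1 = 0 ∨ ∃ s ∈ l, s'.1 = s.1) ∧
      ∀ e, pre * ev (co l') e = tau W (ev l e) * W := by
  induction ws generalizing l pre with
  | nil =>
    have : l = [] := List.length_eq_zero_iff.mp (by simpa using hl)
    subst this
    refine ⟨[], by simp, fun e => ?_⟩
    rw [hW]; simp
  | cons w ws ih =>
    have hW' : (W : WithOne S) = (pre * w) * lp ws := by rw [hW, lp_cons, mul_assoc]
    cases l with
    | nil =>
      obtain ⟨l', h1, h2⟩ := ih [] (by simp) (pre * w) hW'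
      refine ⟨(0, w, w) :: l', ?_, fun e => ?_⟩
      · intro s' hs'
        rcases List.mem_cons.mp hs' with rfl | hs'
        · exact Or.inl rfl
        · rcases h1 s' hs' with h | ⟨s, hs, _⟩
          · exact Or.inl h
          · simp at hs
      · rw [co_cons, ev_cons, sv_coS]
        have : sv (0, w, w) e = w := by cases h : e 0 <;> simp [sv, h]
        rw [this, ← h2 e, mul_assoc]
    | cons s l =>
      obtain ⟨l', h1, h2⟩ := ih l (by simpa using hl) (pre * w) hW'
      obtain ⟨v0, hv0⟩ := pad_val W s.2.1 w ws pre hW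
      obtain ⟨v1, hv1⟩ := pad_val W s.2.2 w ws pre hW
      refine ⟨(s.1, v0, v1) :: l', ?_, fun e => ?_⟩
      · intro s' hs'
        rcases List.mem_cons.mp hs' with rfl | hs'
        · exact Or.inr ⟨s, by simp, rfl⟩
        · rcases h1 s' hs' with h | ⟨t, ht, e⟩
          · exact Or.inl h
          · exact Or.inr ⟨t, by simp [ht], e⟩
      · rw [co_cons, ev_cons, sv_coS, ev_cons]
        cases h : e s.1 with
        | false =>
          simp only [sv, h, Bool.false_eq_true, if_false]
          exact hv0 _ _ (h2 e)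
        | true =>
          simp only [sv, h, if_true]
          exact hv1 _ _ (h2 e)

/-- comparison inside `W S W` -/
def conW (W : S) : Con (NW W) where
  r x y := tau W x * W = tau W y * W
  iseqv := ⟨fun _ => rfl, fun h => h.symm, fun h h' => h.trans h'⟩
  mul' := by
    intro a b c d h h'
    have h : tau W a * W = tau W b * W := h
    have h' : tau W c * W = tau W d * W := h'
    change tau W (a * c) * W = tau W (b * d) * W
    calc tau W (a * c) * W = tau W a * (tau W c * W) := by rw [map_mul, mul_assoc]
      _ = tau W a * W * tau' W d := by rw [h', tau_tau', mul_assoc]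
      _ = tau W b * W * tau' W d := by rw [h]
      _ = tau W b * (tau W d * W) := by rw [mul_assoc, ← tau_tau']
      _ = _ := by rw [map_mul, mul_assoc]

/-- the local monoid at `W` -/
abbrev MW (W : S) : Type u := (conW W).Quotient

/-- value of an element of the local monoid -/
def piM (W : S) (m : MW W) : WithOne S := Con.liftOn m (fun x => tau W x * W) fun _ _ h => h

/-- class of an element of the variant -/
def mkM (W : S) : NW W →* MW W := (conW W).mk'

theorem piM_mk (W : S) (x : NW W) : piM W (mkM W x) = tau W x * W := rfl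

theorem mkM_surj (W : S) (m : MW W) : ∃ x, mkM W x = m := Quot.exists_rep m

theorem piM_inj (W : S) {m m' : MW W} (h : piM W m = piM W m') : m = m' := by
  obtain ⟨x, rfl⟩ := mkM_surj W m
  obtain ⟨y, rfl⟩ := mkM_surj W m'
  exact (Con.eq (conW W)).mpr h

theorem ev_mkM (W : S) (l : List (ℕ × NW W × NW W)) (e : ℕ → Bool) :
    ev (l.map fun s => (s.1, mkM W s.2.1, mkM W s.2.2)) e = mkM W (ev l e) := by
  induction l with
  | nil => simp
  | cons s l ih =>
    rw [List.map_cons, ev_cons, ev_cons, ih, map_mul]
    congr 1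
    cases h : e s.1 <;> simp [sv, h]

theorem lift_list (W : S) (l : List (ℕ × MW W × MW W)) :
    ∃ l0 : List (ℕ × NW W × NW W), l = l0.map fun s => (s.1, mkM W s.2.1, mkM W s.2.2) := by
  induction l with
  | nil => exact ⟨[], rfl⟩
  | cons s l ih =>
    obtain ⟨l0, rfl⟩ := ih
    obtain ⟨i, a, b⟩ := s
    obtain ⟨x, rfl⟩ := mkM_surj W a
    obtain ⟨y, rfl⟩ := mkM_surj W b
    exact ⟨(i, x, y) :: l0, rfl⟩

theorem SNs.local_mon {k n : ℕ} (h : SNs k S) (W : S) (hW : Len n (W : WithOne S)) :
    SNm k n (MW W) := by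
  intro l hl hd hrow
  obtain ⟨l0, rfl⟩ := lift_list W l
  obtain ⟨ws, hws, hW⟩ := hW
  obtain ⟨l', h1, h2⟩ := pad W ws l0 (by simp at hl; omega) 1 (by rw [one_mul]; exact hW)
  simp only [one_mul] at h2
  have := h l'
    (by
      intro s' hs'
      rcases h1 s' hs' with e | ⟨s, hs, e⟩
      · omega
      · rw [e]
        exact hd (s.1, mkM W s.2.1, mkM W s.2.2) (List.mem_map.mpr ⟨s, hs, rfl⟩))
    (by
      intro e he
      have := hrow e he
      rw [ev_mkM, ev_mkM] at this
      rw [h2, h2, ← piM_mk, ← piM_mk, this])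
  rw [ev_mkM, ev_mkM]
  apply piM_inj
  rw [piM_mk, piM_mk, ← h2, ← h2, this]

/-- class of an element of `S` in the local monoid -/
def cm (W x : S) : MW W := mkM W (iv W x)

theorem cm_mul (W x y : S) : cm W x * cm W y = cm W (x * W * y) := by
  rw [cm, cm, ← map_mul, iv_mul]; rfl

theorem piM_cm_mul (W x : S) (m : MW W) : piM W (cm W x * m) = W * x * piM W m := by
  obtain ⟨y, rfl⟩ := mkM_surj W m
  rw [cm, ← map_mul, piM_mk, piM_mk, map_mul, tau_iv]
  simp only [mul_assoc]

theorem piM_mul_cm (W x : S) (m : MW W) : piM W (m * cm W x) = piM W m * x * W := by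
  obtain ⟨y, rfl⟩ := mkM_surj W m
  rw [cm, ← map_mul, piM_mk, piM_mk, map_mul, tau_iv]
  simp only [mul_assoc]

theorem piM_cm (W x : S) : piM W (cm W x) = W * x * W := by
  rw [cm, piM_mk, tau_iv]

theorem piM_coe (W : S) (m : MW W) : ∃ s : S, piM W m = s := by
  obtain ⟨y, rfl⟩ := mkM_surj W m
  rw [piM_mk]
  exact len_coe le_rfl ((len_one W).mul_left _)

theorem cm_eq {W x y : S} (h : (W * x * W : WithOne S) = W * y * W) : cm W x = cm W y := by
  apply piM_inj
  rw [piM_cm, piM_cm, h]

theorem eq_of_cm {W x y : S} (h : cm W x = cm W y) :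
    (W * x * W : WithOne S) = W * y * W := by
  rw [← piM_cm, ← piM_cm, h]

/-- the Ore condition on the right in the context `W` -/
theorem SNs.rr {k n : ℕ} (h : SNs k S) (hn : (tm k).length ≤ n) (W : S)
    (hW : Len n (W : WithOne S)) (a b : S) :
    ∃ u v : S, (W * a * u : WithOne S) = W * b * v := by
  obtain ⟨⟨u, v, huv⟩, -⟩ := (h.local_mon W hW).ore hn (cm W a) (cm W b)
  obtain ⟨u', hu'⟩ := piM_coe W u
  obtain ⟨v', hv'⟩ := piM_coe W v
  refine ⟨u', v', ?_⟩
  rw [← hu', ← hv', ← piM_cm_mul, ← piM_cm_mul, huv]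

/-- the Ore condition on the left in the context `W` -/
theorem SNs.lr {k n : ℕ} (h : SNs k S) (hn : (tm k).length ≤ n) (W : S)
    (hW : Len n (W : WithOne S)) (a b : S) :
    ∃ u v : S, (u * a * W : WithOne S) = v * b * W := by
  obtain ⟨-, ⟨u, v, huv⟩⟩ := (h.local_mon W hW).ore hn (cm W a) (cm W b)
  obtain ⟨u', hu'⟩ := piM_coe W u
  obtain ⟨v', hv'⟩ := piM_coe W v
  refine ⟨u', v', ?_⟩
  rw [← hu', ← hv', ← piM_mul_cm, ← piM_mul_cm, huv]

end Q25.SN
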