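import Mathlib
import Pool.Agent.Q25.SN.Pad

/-!
# Semigroups which are good at level `L`, and chains of congruences
-/

namespace Q25.SN

universe u

variable {S : Type u} [Semigroup S]

/-- the conditions obtained from supernilpotence -/
structure Good (S : Type u) [Semigroup S] (L : ℕ) : Prop where
  pos : 1 ≤ L
  lc : ∀ c : WithOne S, Len L c → ∀ x u v : WithOne S, x * c * u = x * c * v → c * u = c * v
  rc : ∀ c : WithOne S, Len L c → ∀ x u v : WithOne S, u * c * x = v * c * x → u * c = v * c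
  rr : ∀ W : WithOne S, Len L W → ∀ a b : WithOne S, ∃ u v : S, W * a * u = W * b * v
  lr : ∀ W : WithOne S, Len L W → ∀ a b : WithOne S, ∃ u v : S, u * a * W = v * b * W

theorem SNs.good {k L : ℕ} (h : SNs k S) (h1 : k + 1 ≤ L) (h2 : (tm k).length ≤ L) :
    Good S L where
  pos := by omega
  lc := by
    intro c hc x u v e
    rcases eq_or_ne x 1 with rfl | hx
    · simpa using e
    · obtain ⟨x, rfl⟩ := WithOne.ne_one_iff_exists.mp hx
      exact h.lc (hc.mono h1) e
  rc := by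
    intro c hc x u v e
    rcases eq_or_ne x 1 with rfl | hx
    · simpa using e
    · obtain ⟨x, rfl⟩ := WithOne.ne_one_iff_exists.mp hx
      exact h.rc (hc.mono h1) e
  rr := by
    intro W hW a b
    obtain ⟨w, rfl⟩ := len_coe (by omega) hW
    obtain ⟨a', ha'⟩ := len_coe le_rfl ((len_one w).mul_left a)
    obtain ⟨b', hb'⟩ := len_coe le_rfl ((len_one w).mul_left b)
    obtain ⟨u, v, e⟩ := h.rr h2 w hW a' b'
    refine ⟨w * u, w * v, ?_⟩
    rw [← ha', ← hb'] at e
    simpa only [WithOne.coe_mul, mul_assoc] using e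
  lr := by
    intro W hW a b
    obtain ⟨w, rfl⟩ := len_coe (by omega) hW
    obtain ⟨a', ha'⟩ := len_coe le_rfl ((len_one w).mul_right a)
    obtain ⟨b', hb'⟩ := len_coe le_rfl ((len_one w).mul_right b)
    obtain ⟨u, v, e⟩ := h.lr h2 w hW a' b'
    refine ⟨u * w, v * w, ?_⟩
    rw [← ha', ← hb'] at e
    simpa only [WithOne.coe_mul, mul_assoc] using e

/-- common right multiples -/
def Rr (a b : WithOne S) : Prop := ∃ u v : S, a * u = b * v

/-- common left multiples -/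
def Lr (a b : WithOne S) : Prop := ∃ u v : S, u * a = v * b

theorem Rr.symm {a b : WithOne S} (h : Rr a b) : Rr b a := by
  obtain ⟨u, v, e⟩ := h
  exact ⟨v, u, e.symm⟩

theorem Lr.symm {a b : WithOne S} (h : Lr a b) : Lr b a := by
  obtain ⟨u, v, e⟩ := h
  exact ⟨v, u, e.symm⟩

theorem Rr.left {a b : WithOne S} (h : Rr a b) (w : WithOne S) : Rr (w * a) (w * b) := by
  obtain ⟨u, v, e⟩ := h
  exact ⟨u, v, by rw [mul_assoc, e, mul_assoc]⟩

theorem Lr.right {a b : WithOne S} (h : Lr a b) (w : WithOne S) : Lr (a * w) (b * w) := by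
  obtain ⟨u, v, e⟩ := h
  exact ⟨u, v, by rw [← mul_assoc, e, mul_assoc]⟩

theorem Rr.ext [Nonempty S] (a w : WithOne S) : Rr a (a * w) := by
  obtain ⟨s⟩ := ‹Nonempty S›
  obtain ⟨t, ht⟩ := len_coe le_rfl ((len_one s).mul_left w)
  exact ⟨t, s, by rw [← ht, mul_assoc]⟩

theorem Lr.ext [Nonempty S] (a w : WithOne S) : Lr a (w * a) := by
  obtain ⟨s⟩ := ‹Nonempty S›
  obtain ⟨t, ht⟩ := len_coe le_rfl ((len_one s).mul_right w)
  exact ⟨t, s, by rw [← ht, mul_assoc]⟩

theorem Rr.refl [Nonempty S] (a : WithOne S) : Rr a a := by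
  simpa using Rr.ext a 1

theorem Lr.refl [Nonempty S] (a : WithOne S) : Lr a a := by
  simpa using Lr.ext a 1

theorem Good.rtrans {L : ℕ} (g : Good S L) {a b c : WithOne S} (hb : Len L b)
    (h : Rr a b) (h' : Rr b c) : Rr a c := by
  obtain ⟨u, v, e⟩ := h
  obtain ⟨u', v', e'⟩ := h'
  obtain ⟨s, t, e''⟩ := g.rr b hb v u'
  refine ⟨u * s, v' * t, ?_⟩
  rw [WithOne.coe_mul, WithOne.coe_mul, ← mul_assoc, e, e'', e', mul_assoc]

theorem Good.ltrans {L : ℕ} (g : Good S L) {a b c : WithOne S} (hb : Len L b)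
    (h : Lr a b) (h' : Lr b c) : Lr a c := by
  obtain ⟨u, v, e⟩ := h
  obtain ⟨u', v', e'⟩ := h'
  obtain ⟨s, t, e''⟩ := g.lr b hb v u'
  refine ⟨s * u, t * v', ?_⟩
  rw [WithOne.coe_mul, WithOne.coe_mul, mul_assoc, e, ← mul_assoc, e'', mul_assoc, e', ← mul_assoc]

theorem cent2_inf {δ1 δ1' δ2 δ2' : Con S} (h : Cent2 δ1 δ1') (h' : Cent2 δ2 δ2') :
    Cent2 (δ1 ⊓ δ2) (δ1' ⊓ δ2') := by
  constructor
  · intro x hx hrow
    refine ⟨?_, ?_⟩
    · exact cent_two_mono le_rfl inf_le_left h.1 x hx fun ε hε => (hrow ε hε).1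
    · exact cent_two_mono le_rfl inf_le_right h'.1 x hx fun ε hε => (hrow ε hε).2
  · intro x hx hrow
    refine ⟨?_, ?_⟩
    · exact cent_two_mono inf_le_left le_rfl h.2 x hx fun ε hε => (hrow ε hε).1
    · exact cent_two_mono inf_le_right le_rfl h'.2 x hx fun ε hε => (hrow ε hε).2

/-- a congruence from a left and right compatible equivalence relation -/
def mkCon (r : S → S → Prop) (hr : ∀ a, r a a) (hs : ∀ a b, r a b → r b a)
    (ht : ∀ a b c, r a b → r b c → r a c) (hl : ∀ p a b, r a b → r (p * a) (p * b))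
    (hr' : ∀ p a b, r a b → r (a * p) (b * p)) : Con S where
  r := r
  iseqv := ⟨hr, fun h => hs _ _ h, fun h h' => ht _ _ _ h h'⟩
  mul' := by
    intro a b c d h h'
    exact ht _ _ _ (hr' c _ _ h) (hl b _ _ h')

/-! ### Long elements -/

/-- the Rees congruence of the products of at least `j` elements -/
def rho (j : ℕ) : Con S :=
  mkCon (fun a b => a = b ∨ (Len j (a : WithOne S) ∧ Len j (b : WithOne S)))
    (fun _ => Or.inl rfl)
    (by
      rintro a b (rfl | ⟨h, h'⟩)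
      · exact Or.inl rfl
      · exact Or.inr ⟨h', h⟩)
    (by
      rintro a b c (rfl | ⟨h1, h2⟩) (rfl | ⟨h3, h4⟩)
      · exact Or.inl rfl
      · exact Or.inr ⟨h3, h4⟩
      · exact Or.inr ⟨h1, h2⟩
      · exact Or.inr ⟨h1, h4⟩)
    (by
      rintro p a b (rfl | ⟨h1, h2⟩)
      · exact Or.inl rfl
      · right
        rw [WithOne.coe_mul, WithOne.coe_mul]
        exact ⟨h1.mul_left _, h2.mul_left _⟩)
    (by
      rintro p a b (rfl | ⟨h1, h2⟩)
      · exact Or.inl rfl
      · right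
        rw [WithOne.coe_mul, WithOne.coe_mul]
        exact ⟨h1.mul_right _, h2.mul_right _⟩)

theorem rho_iff {j : ℕ} {a b : S} :
    rho j a b ↔ a = b ∨ (Len j (a : WithOne S) ∧ Len j (b : WithOne S)) := Iff.rfl

theorem len_mul_l {j : ℕ} {a : S} (h : Len j (a : WithOne S)) (b : S) :
    Len (j + 1) ((a * b : S) : WithOne S) := by
  rw [WithOne.coe_mul]
  exact h.mul (len_one b)

theorem len_mul_r {j : ℕ} {a : S} (h : Len j (a : WithOne S)) (b : S) :
    Len (j + 1) ((b * a : S) : WithOne S) := by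
  rw [WithOne.coe_mul, add_comm]
  exact (len_one b).mul h

theorem rho_cent (j : ℕ) : Cent2 (rho j : Con S) (rho (j + 1)) := by
  constructor
  · refine cent_of (fun a b c d => rho j c d ∧ ((a = c ∧ b = d) ∨ rho (j + 1) c d)) ?_ ?_ ?_ ?_
    · intro a b _; exact ⟨(rho j).refl _, Or.inr ((rho (j + 1)).refl _)⟩
    · intro a b h; exact ⟨h, Or.inl ⟨rfl, rfl⟩⟩
    · rintro a b c d a' b' c' d' ⟨h1, -⟩ ⟨h1', -⟩
      refine ⟨(rho j).mul h1 h1', Or.inr ?_⟩
      rcases h1 with rfl | ⟨h1, h2⟩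
      · rcases h1' with rfl | ⟨h1', h2'⟩
        · exact Or.inl rfl
        · exact Or.inr ⟨len_mul_r h1' _, len_mul_r h2' _⟩
      · exact Or.inr ⟨len_mul_l h1 _, len_mul_l h2 _⟩
    · rintro a b c d ⟨h1, h2⟩ h
      rcases h2 with ⟨rfl, rfl⟩ | h2
      · exact h
      · exact h2
  · refine cent_of (fun a b c d => (a = c ∧ b = d) ∨ (c = d ∧ Len j (c : WithOne S)) ∨
      (Len (j + 1) (c : WithOne S) ∧ Len (j + 1) (d : WithOne S))) ?_ ?_ ?_ ?_
    · rintro a b (rfl | ⟨h1, h2⟩)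
      · exact Or.inl ⟨rfl, rfl⟩
      · exact Or.inr (Or.inl ⟨rfl, h2⟩)
    · intro a b _; exact Or.inl ⟨rfl, rfl⟩
    · rintro a b c d a' b' c' d' h h'
      have aux : ∀ {a b c d : S}, ((a = c ∧ b = d) ∨ (c = d ∧ Len j (c : WithOne S)) ∨
          (Len (j + 1) (c : WithOne S) ∧ Len (j + 1) (d : WithOne S))) →
          (a = c ∧ b = d) ∨ (Len j (c : WithOne S) ∧ Len j (d : WithOne S)) := by
        rintro a b c d (h | ⟨rfl, h⟩ | ⟨h1, h2⟩)
        · exact Or.inl h
        · exact Or.inr ⟨h, h⟩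
        · exact Or.inr ⟨h1.mono (by omega), h2.mono (by omega)⟩
      rcases aux h with ⟨rfl, rfl⟩ | ⟨h1, h2⟩
      · rcases aux h' with ⟨rfl, rfl⟩ | ⟨h1', h2'⟩
        · exact Or.inl ⟨rfl, rfl⟩
        · exact Or.inr (Or.inr ⟨len_mul_r h1' _, len_mul_r h2' _⟩)
      · exact Or.inr (Or.inr ⟨len_mul_l h1 _, len_mul_l h2 _⟩)
    · rintro a b c d (⟨rfl, rfl⟩ | ⟨rfl, _⟩ | h) h'
      · exact h'
      · exact (rho (j + 1)).refl _
      · exact Or.inr h

/-! ### The annihilator chain -/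

/-- iterated annihilator congruences -/
def th : ℕ → Con S
  | 0 => ⊥
  | m + 1 => mkCon (fun a b => ∀ s, th m (a * s) (b * s) ∧ th m (s * a) (s * b))
      (fun a s => ⟨(th m).refl _, (th m).refl _⟩)
      (fun a b h s => ⟨(th m).symm (h s).1, (th m).symm (h s).2⟩)
      (fun a b c h h' s => ⟨(th m).trans (h s).1 (h' s).1, (th m).trans (h s).2 (h' s).2⟩)
      (by
        intro p a b h s
        refine ⟨?_, ?_⟩
        · rw [mul_assoc, mul_assoc]
          exact (th m).mul ((th m).refl p) (h s).1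
        · rw [← mul_assoc, ← mul_assoc]
          exact (h (s * p)).2)
      (by
        intro p a b h s
        refine ⟨?_, ?_⟩
        · rw [mul_assoc, mul_assoc]
          exact (h (p * s)).1
        · rw [← mul_assoc, ← mul_assoc]
          exact (th m).mul (h s).2 ((th m).refl p))

theorem th_succ_iff {m : ℕ} {a b : S} :
    th (m + 1) a b ↔ ∀ s, th m (a * s) (b * s) ∧ th m (s * a) (s * b) := Iff.rfl

theorem th_mul {m : ℕ} {a b a' b' : S} (h : th (m + 1) a b) (h' : th (m + 1) a' b') :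
    th m (a * a') (b * b') :=
  (th m).trans (th_succ_iff.mp h a').1 (th_succ_iff.mp h' b).2

theorem th_cent (m : ℕ) : Cent2 (th (m + 1) : Con S) (th m) := by
  constructor
  · refine cent_of (fun a b c d => th (m + 1) c d ∧ ((a = c ∧ b = d) ∨ th m c d)) ?_ ?_ ?_ ?_
    · intro a b _; exact ⟨(th (m + 1)).refl _, Or.inr ((th m).refl _)⟩
    · intro a b h; exact ⟨h, Or.inl ⟨rfl, rfl⟩⟩
    · rintro a b c d a' b' c' d' ⟨h1, -⟩ ⟨h1', -⟩
      exact ⟨(th (m + 1)).mul h1 h1', Or.inr (th_mul h1 h1')⟩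
    · rintro a b c d ⟨h1, h2⟩ h
      rcases h2 with ⟨rfl, rfl⟩ | h2
      · exact h
      · exact h2
  · refine cent_of (fun a b c d => th (m + 1) a c ∧ th (m + 1) b d ∧
      ((a = c ∧ b = d) ∨ c = d ∨ (th m a c ∧ th m b d))) ?_ ?_ ?_ ?_
    · intro a b h; exact ⟨h, h, Or.inr (Or.inl rfl)⟩
    · intro a b _; exact ⟨(th (m + 1)).refl _, (th (m + 1)).refl _, Or.inl ⟨rfl, rfl⟩⟩
    · rintro a b c d a' b' c' d' ⟨h1, h2, -⟩ ⟨h1', h2', -⟩
      exact ⟨(th (m + 1)).mul h1 h1', (th (m + 1)).mul h2 h2',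
        Or.inr (Or.inr ⟨th_mul h1 h1', th_mul h2 h2'⟩)⟩
    · rintro a b c d ⟨-, -, h⟩ h'
      rcases h with ⟨rfl, rfl⟩ | rfl | ⟨h1, h2⟩
      · exact h'
      · exact (th m).refl _
      · exact (th m).trans ((th m).symm h1) ((th m).trans h' h2)

/-- a criterion for membership in the annihilator chain -/
theorem th_of {L : ℕ} {x y : S} (h1 : ∀ p : WithOne S, Len L p → p * x = p * y)
    (h2 : ∀ q : WithOne S, Len L q → x * q = y * q) :
    ∀ (m i j : ℕ) (p q : WithOne S) (X Y : S), Len i p → Len j q → 2 * L ≤ i + j + m →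
      (X : WithOne S) = p * x * q → (Y : WithOne S) = p * y * q → th m X Y := by
  intro m
  induction m with
  | zero =>
    intro i j p q X Y hp hq hij hX hY
    have : (X : WithOne S) = Y := by
      rw [hX, hY]
      by_cases hi : L ≤ i
      · rw [h1 p (hp.mono hi)]
      · rw [mul_assoc, h2 q (hq.mono (by omega)), ← mul_assoc]
    exact WithOne.coe_inj.mp this
  | succ m ih =>
    intro i j p q X Y hp hq hij hX hY
    rw [th_succ_iff]
    intro s
    refine ⟨?_, ?_⟩
    · refine ih i (j + 1) p (q * s) (X * s) (Y * s) hp (hq.mul (len_one s)) (by omega) ?_ ?_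
      · rw [WithOne.coe_mul, hX]; simp only [mul_assoc]
      · rw [WithOne.coe_mul, hY]; simp only [mul_assoc]
    · refine ih (i + 1) j (s * p) q (s * X) (s * Y) (by rw [add_comm]; exact (len_one s).mul hp) hq
        (by omega) ?_ ?_
      · rw [WithOne.coe_mul, hX]; simp only [mul_assoc]
      · rw [WithOne.coe_mul, hY]; simp only [mul_assoc]

end Q25.SN
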