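import Mathlib
import Pool.Agent.Q25.SN.Good

/-!
# The chains of common right and left multiples
-/

namespace Q25.SN

universe u

variable {S : Type u} [Semigroup S]

theorem len_one_mul {n : ℕ} {w : WithOne S} (h : Len n w) (s : S) :
    Len (n + 1) ((s : WithOne S) * w) := by
  rw [add_comm]
  exact (len_one s).mul h

/-- the right congruence chain -/
def DR {L : ℕ} (g : Good S L) (j : ℕ) : Con S :=
  mkCon (fun a b => a = b ∨ (Len L (a : WithOne S) ∧ Len L (b : WithOne S) ∧
      ∀ w : WithOne S, Len j w → Rr (w * (a : WithOne S)) (w * (b : WithOne S))))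
    (fun _ => Or.inl rfl)
    (by
      rintro a b (rfl | ⟨h1, h2, h3⟩)
      · exact Or.inl rfl
      · exact Or.inr ⟨h2, h1, fun w hw => (h3 w hw).symm⟩)
    (by
      rintro a b c (rfl | ⟨h1, h2, h3⟩) (rfl | ⟨h1', h2', h3'⟩)
      · exact Or.inl rfl
      · exact Or.inr ⟨h1', h2', h3'⟩
      · exact Or.inr ⟨h1, h2, h3⟩
      · exact Or.inr ⟨h1, h2', fun w hw => g.rtrans (h2.mul_left w) (h3 w hw) (h3' w hw)⟩)
    (by
      rintro p a b (rfl | ⟨h1, h2, h3⟩)
      · exact Or.inl rfl
      · right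
        rw [WithOne.coe_mul, WithOne.coe_mul]
        refine ⟨h1.mul_left _, h2.mul_left _, fun w hw => ?_⟩
        rw [← mul_assoc, ← mul_assoc]
        exact h3 _ (hw.mul_right p))
    (by
      rintro p a b (rfl | ⟨h1, h2, h3⟩)
      · exact Or.inl rfl
      · right
        haveI : Nonempty S := ⟨a⟩
        rw [WithOne.coe_mul, WithOne.coe_mul]
        refine ⟨h1.mul_right _, h2.mul_right _, fun w hw => ?_⟩
        rw [← mul_assoc, ← mul_assoc]
        exact g.rtrans (h1.mul_left w) (Rr.ext _ _).symm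
          (g.rtrans (h2.mul_left w) (h3 w hw) (Rr.ext _ _)))

theorem DR_iff {L : ℕ} {g : Good S L} {j : ℕ} {a b : S} :
    DR g j a b ↔ a = b ∨ (Len L (a : WithOne S) ∧ Len L (b : WithOne S) ∧
      ∀ w : WithOne S, Len j w → Rr (w * (a : WithOne S)) (w * (b : WithOne S))) := Iff.rfl

theorem DR_rel [Nonempty S] {L : ℕ} {g : Good S L} {j : ℕ} {a b : S} (h : DR g j a b)
    {w : WithOne S} (hw : Len j w) : Rr (w * (a : WithOne S)) (w * (b : WithOne S)) := by
  rcases h with rfl | ⟨_, _, h⟩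
  · exact Rr.refl _
  · exact h w hw

theorem rext [Nonempty S] {L : ℕ} (g : Good S L) {a b c d : WithOne S} (ha : Len L a)
    (hb : Len L b) (h : Rr a b) : Rr (a * c) (b * d) :=
  g.rtrans ha (Rr.ext _ _).symm (g.rtrans hb h (Rr.ext _ _))

theorem DR_cent {L : ℕ} (g : Good S L) (j : ℕ) : Cent2 (DR g (j + 1)) (DR g j) := by
  rcases isEmpty_or_nonempty S with hS | hS
  · exact ⟨fun x _ _ => isEmptyElim (x fun _ => true).1,
      fun x _ _ => isEmptyElim (x fun _ => true).1⟩
  constructor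
  · refine cent_of (fun a b c d => DR g (j + 1) c d ∧ (DR g j c d ∨
      ((Len L (a : WithOne S) ∧ Len L (b : WithOne S) ∧ Len L (c : WithOne S) ∧
        Len L (d : WithOne S)) ∧ ∀ w : WithOne S, Len j w →
          Rr (w * (a : WithOne S)) (w * (c : WithOne S)) ∧ Rr (w * (b : WithOne S)) (w * (d : WithOne S))))) ?_ ?_ ?_ ?_
    · intro a b _
      exact ⟨(DR g (j + 1)).refl _, Or.inl ((DR g j).refl _)⟩
    · intro a b h
      refine ⟨h, ?_⟩
      rcases h with rfl | ⟨h1, h2, h3⟩
      · exact Or.inl ((DR g j).refl _)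
      · exact Or.inr ⟨⟨h1, h2, h1, h2⟩, fun w _ => ⟨Rr.refl _, Rr.refl _⟩⟩
    · rintro a b c d a' b' c' d' ⟨h1, h2⟩ ⟨h1', h2'⟩
      refine ⟨(DR g (j + 1)).mul h1 h1', ?_⟩
      rcases h2 with h2 | ⟨⟨ta, tb, tc, td⟩, h2⟩
      · rcases h2 with rfl | ⟨tc, td, h2⟩
        · rcases h1' with rfl | ⟨tc', td', h1'⟩
          · exact Or.inl ((DR g j).refl _)
          · refine Or.inl (Or.inr ?_)
            rw [WithOne.coe_mul, WithOne.coe_mul]
            refine ⟨tc'.mul_left _, td'.mul_left _, fun w hw => ?_⟩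
            rw [← mul_assoc, ← mul_assoc]
            exact h1' _ (hw.mul (len_one _))
        · refine Or.inl (Or.inr ?_)
          rw [WithOne.coe_mul, WithOne.coe_mul]
          refine ⟨tc.mul_right _, td.mul_right _, fun w hw => ?_⟩
          rw [← mul_assoc, ← mul_assoc]
          exact rext g (tc.mul_left w) (td.mul_left w) (h2 w hw)
      · right
        simp only [WithOne.coe_mul]
        refine ⟨⟨ta.mul_right _, tb.mul_right _, tc.mul_right _, td.mul_right _⟩,
          fun w hw => ?_⟩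
        simp only [← mul_assoc]
        exact ⟨rext g (ta.mul_left w) (tc.mul_left w) (h2 w hw).1,
          rext g (tb.mul_left w) (td.mul_left w) (h2 w hw).2⟩
    · rintro a b c d ⟨-, h2⟩ h
      rcases h2 with h2 | ⟨⟨ta, tb, tc, td⟩, h2⟩
      · exact h2
      · refine Or.inr ⟨tc, td, fun w hw => ?_⟩
        exact g.rtrans (ta.mul_left w) (h2 w hw).1.symm
          (g.rtrans (tb.mul_left w) (DR_rel h hw) (h2 w hw).2)
  · refine cent_of (fun a b c d => (a = c ∧ b = d) ∨
      ((Len L (a : WithOne S) ∧ Len L (b : WithOne S) ∧ Len L (c : WithOne S) ∧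
        Len L (d : WithOne S)) ∧ DR g (j + 1) a c ∧ DR g (j + 1) b d ∧
        ((∀ w : WithOne S, Len j w → Rr (w * (c : WithOne S)) (w * (d : WithOne S))) ∨ ∀ w : WithOne S, Len j w →
          Rr (w * (a : WithOne S)) (w * (c : WithOne S)) ∧ Rr (w * (b : WithOne S)) (w * (d : WithOne S))))) ?_ ?_ ?_ ?_
    · intro a b h
      have h' := h
      rcases h with rfl | ⟨h1, h2, h3⟩
      · exact Or.inl ⟨rfl, rfl⟩
      · exact Or.inr ⟨⟨h1, h1, h2, h2⟩, h', h', Or.inl fun w _ => Rr.refl _⟩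
    · intro a b _
      exact Or.inl ⟨rfl, rfl⟩
    · rintro a b c d a' b' c' d' h h'
      have aux : ∀ {a b c d : S}, ((a = c ∧ b = d) ∨
        ((Len L (a : WithOne S) ∧ Len L (b : WithOne S) ∧ Len L (c : WithOne S) ∧
        Len L (d : WithOne S)) ∧ DR g (j + 1) a c ∧ DR g (j + 1) b d ∧
        ((∀ w : WithOne S, Len j w → Rr (w * (c : WithOne S)) (w * (d : WithOne S))) ∨ ∀ w : WithOne S, Len j w →
          Rr (w * (a : WithOne S)) (w * (c : WithOne S)) ∧ Rr (w * (b : WithOne S)) (w * (d : WithOne S))))) → DR g (j + 1) a c ∧ DR g (j + 1) b d := by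
        rintro a b c d (⟨rfl, rfl⟩ | ⟨_, h1, h2, _⟩)
        · exact ⟨(DR g (j + 1)).refl _, (DR g (j + 1)).refl _⟩
        · exact ⟨h1, h2⟩
      have k1 := aux h
      have k2 := aux h'
      rcases h with ⟨rfl, rfl⟩ | ⟨⟨ta, tb, tc, td⟩, h1, h2, h3⟩
      · rcases h' with ⟨rfl, rfl⟩ | ⟨⟨ta', tb', tc', td'⟩, h1', h2', h3'⟩
        · exact Or.inl ⟨rfl, rfl⟩
        · refine Or.inr ⟨?_, (DR g (j + 1)).mul k1.1 k2.1, (DR g (j + 1)).mul k1.2 k2.2,
            Or.inr ?_⟩
          · simp only [WithOne.coe_mul]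
            exact ⟨ta'.mul_left _, tb'.mul_left _, tc'.mul_left _, td'.mul_left _⟩
          · intro w hw
            simp only [WithOne.coe_mul, ← mul_assoc]
            exact ⟨DR_rel h1' (hw.mul (len_one _)), DR_rel h2' (hw.mul (len_one _))⟩
      · refine Or.inr ⟨?_, (DR g (j + 1)).mul k1.1 k2.1, (DR g (j + 1)).mul k1.2 k2.2, ?_⟩
        · simp only [WithOne.coe_mul]
          exact ⟨ta.mul_right _, tb.mul_right _, tc.mul_right _, td.mul_right _⟩
        · rcases h3 with h3 | h3
          · left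
            intro w hw
            simp only [WithOne.coe_mul, ← mul_assoc]
            exact rext g (tc.mul_left w) (td.mul_left w) (h3 w hw)
          · right
            intro w hw
            simp only [WithOne.coe_mul, ← mul_assoc]
            exact ⟨rext g (ta.mul_left w) (tc.mul_left w) (h3 w hw).1,
              rext g (tb.mul_left w) (td.mul_left w) (h3 w hw).2⟩
    · rintro a b c d (⟨rfl, rfl⟩ | ⟨⟨ta, tb, tc, td⟩, _, _, h3⟩) h
      · exact h
      · refine Or.inr ⟨tc, td, fun w hw => ?_⟩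
        rcases h3 with h3 | h3
        · exact h3 w hw
        · exact g.rtrans (ta.mul_left w) (h3 w hw).1.symm
            (g.rtrans (tb.mul_left w) (DR_rel h hw) (h3 w hw).2)

theorem rho_le_DR {L : ℕ} (g : Good S L) : rho L ≤ DR g L := by
  rintro a b (rfl | ⟨h1, h2⟩)
  · exact Or.inl rfl
  · haveI : Nonempty S := ⟨a⟩
    refine Or.inr ⟨h1, h2, fun w hw => ?_⟩
    exact g.rtrans hw (Rr.ext _ _).symm (Rr.ext _ _)

/-- the left congruence chain -/
def DL {L : ℕ} (g : Good S L) (j : ℕ) : Con S :=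
  mkCon (fun a b => a = b ∨ (Len L (a : WithOne S) ∧ Len L (b : WithOne S) ∧
      ∀ w : WithOne S, Len j w → Lr ((a : WithOne S) * w) ((b : WithOne S) * w)))
    (fun _ => Or.inl rfl)
    (by
      rintro a b (rfl | ⟨h1, h2, h3⟩)
      · exact Or.inl rfl
      · exact Or.inr ⟨h2, h1, fun w hw => (h3 w hw).symm⟩)
    (by
      rintro a b c (rfl | ⟨h1, h2, h3⟩) (rfl | ⟨h1', h2', h3'⟩)
      · exact Or.inl rfl
      · exact Or.inr ⟨h1', h2', h3'⟩
      · exact Or.inr ⟨h1, h2, h3⟩
      · exact Or.inr ⟨h1, h2', fun w hw => g.ltrans (h2.mul_right w) (h3 w hw) (h3' w hw)⟩)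
    (by
      rintro p a b (rfl | ⟨h1, h2, h3⟩)
      · exact Or.inl rfl
      · right
        haveI : Nonempty S := ⟨a⟩
        rw [WithOne.coe_mul, WithOne.coe_mul]
        refine ⟨h1.mul_left _, h2.mul_left _, fun w hw => ?_⟩
        rw [mul_assoc, mul_assoc]
        exact g.ltrans (h1.mul_right w) (Lr.ext _ _).symm
          (g.ltrans (h2.mul_right w) (h3 w hw) (Lr.ext _ _)))
    (by
      rintro p a b (rfl | ⟨h1, h2, h3⟩)
      · exact Or.inl rfl
      · right
        rw [WithOne.coe_mul, WithOne.coe_mul]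
        refine ⟨h1.mul_right _, h2.mul_right _, fun w hw => ?_⟩
        rw [mul_assoc, mul_assoc]
        exact h3 _ (hw.mul_left p))

theorem DL_iff {L : ℕ} {g : Good S L} {j : ℕ} {a b : S} :
    DL g j a b ↔ a = b ∨ (Len L (a : WithOne S) ∧ Len L (b : WithOne S) ∧
      ∀ w : WithOne S, Len j w → Lr ((a : WithOne S) * w) ((b : WithOne S) * w)) := Iff.rfl

theorem DL_rel [Nonempty S] {L : ℕ} {g : Good S L} {j : ℕ} {a b : S} (h : DL g j a b)
    {w : WithOne S} (hw : Len j w) : Lr ((a : WithOne S) * w) ((b : WithOne S) * w) := by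
  rcases h with rfl | ⟨_, _, h⟩
  · exact Lr.refl _
  · exact h w hw

theorem lext [Nonempty S] {L : ℕ} (g : Good S L) {a b c d : WithOne S} (ha : Len L a)
    (hb : Len L b) (h : Lr a b) : Lr (c * a) (d * b) :=
  g.ltrans ha (Lr.ext _ _).symm (g.ltrans hb h (Lr.ext _ _))

theorem DL_cent {L : ℕ} (g : Good S L) (j : ℕ) : Cent2 (DL g (j + 1)) (DL g j) := by
  rcases isEmpty_or_nonempty S with hS | hS
  · exact ⟨fun x _ _ => isEmptyElim (x fun _ => true).1,
      fun x _ _ => isEmptyElim (x fun _ => true).1⟩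
  constructor
  · refine cent_of (fun a b c d => DL g (j + 1) c d ∧ (DL g j c d ∨
      ((Len L (a : WithOne S) ∧ Len L (b : WithOne S) ∧ Len L (c : WithOne S) ∧
        Len L (d : WithOne S)) ∧ ∀ w : WithOne S, Len j w →
          Lr ((a : WithOne S) * w) ((c : WithOne S) * w) ∧
          Lr ((b : WithOne S) * w) ((d : WithOne S) * w)))) ?_ ?_ ?_ ?_
    · intro a b _
      exact ⟨(DL g (j + 1)).refl _, Or.inl ((DL g j).refl _)⟩
    · intro a b h
      refine ⟨h, ?_⟩
      rcases h with rfl | ⟨h1, h2, h3⟩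
      · exact Or.inl ((DL g j).refl _)
      · exact Or.inr ⟨⟨h1, h2, h1, h2⟩, fun w _ => ⟨Lr.refl _, Lr.refl _⟩⟩
    · rintro a' b' c' d' a b c d ⟨h1', h2'⟩ ⟨h1, h2⟩
      refine ⟨(DL g (j + 1)).mul h1' h1, ?_⟩
      rcases h2 with h2 | ⟨⟨ta, tb, tc, td⟩, h2⟩
      · rcases h2 with rfl | ⟨tc, td, h2⟩
        · rcases h1' with rfl | ⟨tc', td', h1'⟩
          · exact Or.inl ((DL g j).refl _)
          · refine Or.inl (Or.inr ?_)
            rw [WithOne.coe_mul, WithOne.coe_mul]
            refine ⟨tc'.mul_right _, td'.mul_right _, fun w hw => ?_⟩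
            rw [mul_assoc, mul_assoc]
            exact h1' _ (len_one_mul hw _)
        · refine Or.inl (Or.inr ?_)
          rw [WithOne.coe_mul, WithOne.coe_mul]
          refine ⟨tc.mul_left _, td.mul_left _, fun w hw => ?_⟩
          rw [mul_assoc, mul_assoc]
          exact lext g (tc.mul_right w) (td.mul_right w) (h2 w hw)
      · right
        simp only [WithOne.coe_mul]
        refine ⟨⟨ta.mul_left _, tb.mul_left _, tc.mul_left _, td.mul_left _⟩,
          fun w hw => ?_⟩
        simp only [mul_assoc]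
        exact ⟨lext g (ta.mul_right w) (tc.mul_right w) (h2 w hw).1,
          lext g (tb.mul_right w) (td.mul_right w) (h2 w hw).2⟩
    · rintro a b c d ⟨-, h2⟩ h
      rcases h2 with h2 | ⟨⟨ta, tb, tc, td⟩, h2⟩
      · exact h2
      · refine Or.inr ⟨tc, td, fun w hw => ?_⟩
        exact g.ltrans (ta.mul_right w) (h2 w hw).1.symm
          (g.ltrans (tb.mul_right w) (DL_rel h hw) (h2 w hw).2)
  · refine cent_of (fun a b c d => (a = c ∧ b = d) ∨
      ((Len L (a : WithOne S) ∧ Len L (b : WithOne S) ∧ Len L (c : WithOne S) ∧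
        Len L (d : WithOne S)) ∧ DL g (j + 1) a c ∧ DL g (j + 1) b d ∧
        ((∀ w : WithOne S, Len j w → Lr ((c : WithOne S) * w) ((d : WithOne S) * w)) ∨
          ∀ w : WithOne S, Len j w →
          Lr ((a : WithOne S) * w) ((c : WithOne S) * w) ∧
          Lr ((b : WithOne S) * w) ((d : WithOne S) * w)))) ?_ ?_ ?_ ?_
    · intro a b h
      have h' := h
      rcases h with rfl | ⟨h1, h2, h3⟩
      · exact Or.inl ⟨rfl, rfl⟩
      · exact Or.inr ⟨⟨h1, h1, h2, h2⟩, h', h', Or.inl fun w _ => Lr.refl _⟩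
    · intro a b _
      exact Or.inl ⟨rfl, rfl⟩
    · rintro a' b' c' d' a b c d h' h
      have aux : ∀ {a b c d : S}, ((a = c ∧ b = d) ∨
        ((Len L (a : WithOne S) ∧ Len L (b : WithOne S) ∧ Len L (c : WithOne S) ∧
        Len L (d : WithOne S)) ∧ DL g (j + 1) a c ∧ DL g (j + 1) b d ∧
        ((∀ w : WithOne S, Len j w → Lr ((c : WithOne S) * w) ((d : WithOne S) * w)) ∨
          ∀ w : WithOne S, Len j w →
          Lr ((a : WithOne S) * w) ((c : WithOne S) * w) ∧
          Lr ((b : WithOne S) * w) ((d : WithOne S) * w)))) →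
          DL g (j + 1) a c ∧ DL g (j + 1) b d := by
        rintro a b c d (⟨rfl, rfl⟩ | ⟨_, h1, h2, _⟩)
        · exact ⟨(DL g (j + 1)).refl _, (DL g (j + 1)).refl _⟩
        · exact ⟨h1, h2⟩
      have k1 := aux h
      have k2 := aux h'
      rcases h with ⟨rfl, rfl⟩ | ⟨⟨ta, tb, tc, td⟩, h1, h2, h3⟩
      · rcases h' with ⟨rfl, rfl⟩ | ⟨⟨ta', tb', tc', td'⟩, h1', h2', h3'⟩
        · exact Or.inl ⟨rfl, rfl⟩
        · refine Or.inr ⟨?_, (DL g (j + 1)).mul k2.1 k1.1, (DL g (j + 1)).mul k2.2 k1.2,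
            Or.inr ?_⟩
          · simp only [WithOne.coe_mul]
            exact ⟨ta'.mul_right _, tb'.mul_right _, tc'.mul_right _, td'.mul_right _⟩
          · intro w hw
            simp only [WithOne.coe_mul, mul_assoc]
            exact ⟨DL_rel h1' (len_one_mul hw _), DL_rel h2' (len_one_mul hw _)⟩
      · refine Or.inr ⟨?_, (DL g (j + 1)).mul k2.1 k1.1, (DL g (j + 1)).mul k2.2 k1.2, ?_⟩
        · simp only [WithOne.coe_mul]
          exact ⟨ta.mul_left _, tb.mul_left _, tc.mul_left _, td.mul_left _⟩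
        · rcases h3 with h3 | h3
          · left
            intro w hw
            simp only [WithOne.coe_mul, mul_assoc]
            exact lext g (tc.mul_right w) (td.mul_right w) (h3 w hw)
          · right
            intro w hw
            simp only [WithOne.coe_mul, mul_assoc]
            exact ⟨lext g (ta.mul_right w) (tc.mul_right w) (h3 w hw).1,
              lext g (tb.mul_right w) (td.mul_right w) (h3 w hw).2⟩
    · rintro a b c d (⟨rfl, rfl⟩ | ⟨⟨ta, tb, tc, td⟩, _, _, h3⟩) h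
      · exact h
      · refine Or.inr ⟨tc, td, fun w hw => ?_⟩
        rcases h3 with h3 | h3
        · exact h3 w hw
        · exact g.ltrans (ta.mul_right w) (h3 w hw).1.symm
            (g.ltrans (tb.mul_right w) (DL_rel h hw) (h3 w hw).2)

theorem rho_le_DL {L : ℕ} (g : Good S L) : rho L ≤ DL g L := by
  rintro a b (rfl | ⟨h1, h2⟩)
  · exact Or.inl rfl
  · haveI : Nonempty S := ⟨a⟩
    refine Or.inr ⟨h1, h2, fun w hw => ?_⟩
    exact g.ltrans hw (Lr.ext _ _).symm (Lr.ext _ _)

end Q25.SN
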