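import Mathlib

/-!
# Words over five letters

Combinatorics of the words used in the example of a left and right 2-nilpotent semigroup which
is not supernilpotent.
-/

namespace Q25.SN

/-- The five letters: a start letter, its marked copy, a middle letter, an end letter and its
marked copy. -/
inductive Ltr
  | p | pm | y | q | qm
  deriving DecidableEq

namespace Ltr

/-- start letters -/
def isP : Ltr → Bool
  | p => true
  | pm => true
  | _ => false

/-- the middle letter -/
def isY : Ltr → Bool
  | y => true
  | _ => false

/-- end letters -/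
def isQ : Ltr → Bool
  | q => true
  | qm => true
  | _ => false

/-- marked letters -/
def isM : Ltr → Bool
  | pm => true
  | qm => true
  | _ => false

end Ltr

open Ltr

abbrev cp (l : List Ltr) : ℕ := l.countP isP
abbrev cy (l : List Ltr) : ℕ := l.countP isY
abbrev cq (l : List Ltr) : ℕ := l.countP isQ
abbrev cm (l : List Ltr) : ℕ := l.countP isM

/-- The number of inversions with respect to the order start letters < middle letter < end
letters. -/
def inv : List Ltr → ℕ
  | [] => 0
  | Ltr.p :: l => inv l
  | Ltr.pm :: l => inv l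
  | Ltr.y :: l => cp l + inv l
  | Ltr.q :: l => cp l + cy l + inv l
  | Ltr.qm :: l => cp l + cy l + inv l

theorem inv_append (l l' : List Ltr) :
    inv (l ++ l') = inv l + inv l' + cy l * cp l' + cq l * (cp l' + cy l') := by
  induction l with
  | nil => simp [inv]
  | cons a l ih =>
    cases a <;>
      simp only [List.cons_append, inv, ih, cp, cy, cq, List.countP_append, List.countP_cons,
        isY, isP, isQ] <;> simp <;> ring

/-- A word without inversions is sorted. -/
theorem sorted_of_inv {l : List Ltr} (h : inv l = 0) :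
    ∃ P Q : List Ltr, (∀ x ∈ P, x = Ltr.p ∨ x = Ltr.pm) ∧ (∀ x ∈ Q, x = Ltr.q ∨ x = Ltr.qm) ∧
      l = P ++ (List.replicate (cy l) Ltr.y ++ Q) ∧ cp l = P.length ∧ cq l = Q.length := by
  induction l with
  | nil => exact ⟨[], [], by simp, by simp, by simp [cy], by simp [cp], by simp [cq]⟩
  | cons a l ih =>
    have hl : inv l = 0 := by
      cases a <;> simp only [inv] at h <;> omega
    obtain ⟨P, Q, hP, hQ, e, eP, eQ⟩ := ih hl
    cases a with
    | p =>
      refine ⟨Ltr.p :: P, Q, ?_, hQ, ?_, ?_, ?_⟩
      · simpa using hP
      · have : cy (Ltr.p :: l) = cy l := by simp [cy, List.countP_cons, isY]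
        rw [this, List.cons_append, ← e]
      · simp [cp, List.countP_cons, isP]; exact eP
      · simp only [cq, List.countP_cons, isQ]; simpa using eQ
    | pm =>
      refine ⟨Ltr.pm :: P, Q, ?_, hQ, ?_, ?_, ?_⟩
      · simpa using hP
      · have : cy (Ltr.pm :: l) = cy l := by simp [cy, List.countP_cons, isY]
        rw [this, List.cons_append, ← e]
      · simp [cp, List.countP_cons, isP]; exact eP
      · simp only [cq, List.countP_cons, isQ]; simpa using eQ
    | y =>
      have h0 : cp l = 0 := by simp only [inv] at h; omega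
      have hP0 : P = [] := by
        rw [h0] at eP; exact List.length_eq_zero_iff.mp eP.symm
      subst hP0
      refine ⟨[], Q, by simp, hQ, ?_, ?_, ?_⟩
      · have : cy (Ltr.y :: l) = cy l + 1 := by simp [cy, List.countP_cons, isY]
        rw [this, List.replicate_succ]
        simp only [List.nil_append, List.cons_append]
        simp only [List.nil_append] at e
        rw [← e]
      · simp only [cp, List.countP_cons, isP]; simpa using h0
      · simp only [cq, List.countP_cons, isQ]; simpa using eQ
    | q =>
      have h0 : cp l = 0 := by simp only [inv] at h; omega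
      have h1 : cy l = 0 := by simp only [inv] at h; omega
      have hP0 : P = [] := by
        rw [h0] at eP; exact List.length_eq_zero_iff.mp eP.symm
      subst hP0
      have e' : l = Q := by simpa [h1] using e
      refine ⟨[], Ltr.q :: Q, by simp, by simpa using hQ, ?_, ?_, ?_⟩
      · have : cy (Ltr.q :: l) = 0 := by simpa [cy, List.countP_cons, isY] using h1
        rw [this]
        simp [e']
      · simp only [cp, List.countP_cons, isP]; simpa using h0
      · simp only [cq, List.countP_cons, isQ]; simpa using eQ
    | qm =>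
      have h0 : cp l = 0 := by simp only [inv] at h; omega
      have h1 : cy l = 0 := by simp only [inv] at h; omega
      have hP0 : P = [] := by
        rw [h0] at eP; exact List.length_eq_zero_iff.mp eP.symm
      subst hP0
      have e' : l = Q := by simpa [h1] using e
      refine ⟨[], Ltr.qm :: Q, by simp, by simpa using hQ, ?_, ?_, ?_⟩
      · have : cy (Ltr.qm :: l) = 0 := by simpa [cy, List.countP_cons, isY] using h1
        rw [this]
        simp [e']
      · simp only [cp, List.countP_cons, isP]; simpa using h0
      · simp only [cq, List.countP_cons, isQ]; simpa using eQ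

/-- The special words. -/
def uw (D : ℕ) : List Ltr := Ltr.pm :: (List.replicate D Ltr.y ++ [Ltr.q])

/-- Their partners. -/
def vw (D : ℕ) : List Ltr := Ltr.p :: (List.replicate D Ltr.y ++ [Ltr.qm])

/-- The content of a word: the numbers of start, middle, end and marked letters. -/
def cont (l : List Ltr) : ℕ × ℕ × ℕ × ℕ := (cp l, cy l, cq l, cm l)

theorem cont_append (l l' : List Ltr) : cont (l ++ l') = cont l + cont l' := by
  simp [cont, cp, cy, cq, cm, List.countP_append]

theorem cont_rep (j : ℕ) : cont (List.replicate j Ltr.y) = (0, j, 0, 0) := by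
  simp [cont, cp, cy, cq, cm, isP, isY, isQ, isM, List.countP_replicate]

theorem inv_rep (j : ℕ) : inv (List.replicate j Ltr.y) = 0 := by
  induction j with
  | zero => rfl
  | succ n ih =>
    rw [List.replicate_succ, inv, ih]
    simp [cp, isP, List.countP_replicate]

theorem cont_pre (j : ℕ) : cont (Ltr.pm :: List.replicate j Ltr.y) = (1, j, 0, 1) := by
  simp [cont, cp, cy, cq, cm, isP, isY, isQ, isM, List.countP_replicate, List.countP_cons]

theorem inv_pre (j : ℕ) : inv (Ltr.pm :: List.replicate j Ltr.y) = 0 := by
  rw [inv, inv_rep]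

theorem cont_suf (j : ℕ) : cont (List.replicate j Ltr.y ++ [Ltr.q]) = (0, j, 1, 0) := by
  simp [cont, cp, cy, cq, cm, isP, isY, isQ, isM, List.countP_replicate, List.countP_cons,
    List.countP_append]

theorem inv_suf (j : ℕ) : inv (List.replicate j Ltr.y ++ [Ltr.q]) = 0 := by
  rw [inv_append, inv_rep]
  simp [inv, cp, cy, cq, isP, isY, isQ, List.countP_replicate, List.countP_cons]

theorem uw_eq (j i : ℕ) :
    uw (j + i) = (Ltr.pm :: List.replicate j Ltr.y) ++ (List.replicate i Ltr.y ++ [Ltr.q]) := by
  rw [uw, List.replicate_add, List.append_assoc]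
  rfl

theorem cont_uw (D : ℕ) : cont (uw D) = (1, D, 1, 1) := by
  have := uw_eq D 0
  rw [Nat.add_zero] at this
  rw [this, cont_append, cont_pre, cont_suf]
  simp

theorem inv_uw (D : ℕ) : inv (uw D) = 0 := by
  have := uw_eq D 0
  rw [Nat.add_zero] at this
  rw [this, inv_append, inv_pre, inv_suf]
  simp [cp, cy, cq, isP, isY, isQ, List.countP_cons]

/-- isolation of the powers of the middle letter -/
theorem iso_rep {l : List Ltr} {j : ℕ} (h : cont l = (0, j, 0, 0)) :
    l = List.replicate j Ltr.y := by
  simp only [cont, Prod.mk.injEq] at h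
  obtain ⟨h1, h2, h3, h4⟩ := h
  have hall : ∀ x ∈ l, x = Ltr.y := by
    intro x hx
    have a1 := (List.countP_eq_zero.mp h1) x hx
    have a3 := (List.countP_eq_zero.mp h3) x hx
    cases x <;> simp_all [isP, isQ]
  have hl : l = List.replicate l.length Ltr.y := List.eq_replicate_iff.mpr ⟨rfl, hall⟩
  have : l.length = j := by
    rw [← h2]
    symm
    apply List.countP_eq_length.mpr
    intro x hx
    rw [hall x hx]; rfl
  rw [← this]; exact hl

/-- isolation of the proper initial parts -/
theorem iso_pre {l : List Ltr} {j : ℕ} (h : cont l = (1, j, 0, 1)) (hi : inv l = 0) :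
    l = Ltr.pm :: List.replicate j Ltr.y := by
  simp only [cont, Prod.mk.injEq] at h
  obtain ⟨h1, h2, h3, h4⟩ := h
  obtain ⟨P, Q, hP, hQ, e, eP, eQ⟩ := sorted_of_inv hi
  rw [h1] at eP
  rw [h3] at eQ
  obtain ⟨x, rfl⟩ := List.length_eq_one_iff.mp eP.symm
  have hQ0 : Q = [] := List.length_eq_zero_iff.mp eQ.symm
  subst hQ0
  rw [h2] at e
  rcases hP x (by simp) with rfl | rfl
  · rw [e] at h4
    simp [cm, isM, List.countP_replicate, List.countP_cons] at h4
  · simpa using e

/-- isolation of the proper final parts -/
theorem iso_suf {l : List Ltr} {j : ℕ} (h : cont l = (0, j, 1, 0)) (hi : inv l = 0) :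
    l = List.replicate j Ltr.y ++ [Ltr.q] := by
  simp only [cont, Prod.mk.injEq] at h
  obtain ⟨h1, h2, h3, h4⟩ := h
  obtain ⟨P, Q, hP, hQ, e, eP, eQ⟩ := sorted_of_inv hi
  rw [h1] at eP
  rw [h3] at eQ
  obtain ⟨x, rfl⟩ := List.length_eq_one_iff.mp eQ.symm
  have hP0 : P = [] := List.length_eq_zero_iff.mp eP.symm
  subst hP0
  rw [h2] at e
  rcases hQ x (by simp) with rfl | rfl
  · simpa using e
  · rw [e] at h4
    simp [cm, isM, List.countP_replicate, List.countP_cons] at h4

/-- the class of a special word -/
theorem iso_uw {l : List Ltr} {D : ℕ} (h : cont l = (1, D, 1, 1)) (hi : inv l = 0) :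
    l = uw D ∨ l = vw D := by
  simp only [cont, Prod.mk.injEq] at h
  obtain ⟨h1, h2, h3, h4⟩ := h
  obtain ⟨P, Q, hP, hQ, e, eP, eQ⟩ := sorted_of_inv hi
  rw [h1] at eP
  rw [h3] at eQ
  obtain ⟨x, rfl⟩ := List.length_eq_one_iff.mp eP.symm
  obtain ⟨z, rfl⟩ := List.length_eq_one_iff.mp eQ.symm
  rw [h2] at e
  rcases hP x (by simp) with rfl | rfl <;> rcases hQ z (by simp) with rfl | rfl
  · rw [e] at h4
    simp [cm, isM, List.countP_replicate, List.countP_cons] at h4
  · right; simpa [vw] using e
  · left; simpa [uw] using e
  · rw [e] at h4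
    simp [cm, isM, List.countP_replicate, List.countP_cons] at h4

/-- splitting a special word -/
theorem split_uw {l l' : List Ltr} {D : ℕ} (h : l ++ l' = uw D) (h1 : l ≠ []) (h2 : l' ≠ []) :
    ∃ j i : ℕ, D = j + i ∧ l = Ltr.pm :: List.replicate j Ltr.y ∧
      l' = List.replicate i Ltr.y ++ [Ltr.q] := by
  obtain ⟨a, t, rfl⟩ := List.exists_cons_of_ne_nil h1
  rw [uw, List.cons_append] at h
  injection h with ha h
  subst ha
  rcases List.append_eq_append_iff.mp h with ⟨c, hc, hc'⟩ | ⟨c, hc, hc'⟩
  · -- replicate = t ++ c, l' = c ++ [q]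
    have ht : t = List.replicate t.length Ltr.y ∧ c = List.replicate c.length Ltr.y := by
      constructor
      · refine List.eq_replicate_iff.mpr ⟨rfl, fun x hx => ?_⟩
        have : x ∈ List.replicate D Ltr.y := by rw [hc]; simp [hx]
        exact List.eq_of_mem_replicate this
      · refine List.eq_replicate_iff.mpr ⟨rfl, fun x hx => ?_⟩
        have : x ∈ List.replicate D Ltr.y := by rw [hc]; simp [hx]
        exact List.eq_of_mem_replicate this
    refine ⟨t.length, c.length, ?_, ?_, ?_⟩
    · have := congrArg List.length hc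
      simpa using this
    · rw [← ht.1]
    · rw [hc', ← ht.2]
  · -- t = replicate ++ c, [q] = c ++ l'
    cases c with
    | nil =>
      simp only [List.append_nil, List.nil_append] at hc hc'
      exact ⟨D, 0, rfl, by rw [hc], by rw [← hc']; simp⟩
    | cons b c =>
      rw [List.cons_append] at hc'
      injection hc' with _ hc'
      exact absurd (List.append_eq_nil_iff.mp hc'.symm).2 h2

/-- two words of equal content whose products with words of equal content have the same
invariants as a special word -/
theorem lemA {s s' t t' : List Ltr} {D : ℕ} (hs : s ≠ []) (hs' : s' ≠ [])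
    (h : s ++ s' = uw D) (hc : cont s = cont t) (hc' : cont s' = cont t')
    (hi : inv (t ++ t') = 0) : s = t ∧ s' = t' := by
  obtain ⟨j, i, rfl, rfl, rfl⟩ := split_uw h hs hs'
  rw [inv_append] at hi
  rw [cont_pre] at hc
  rw [cont_suf] at hc'
  exact ⟨(iso_pre hc.symm (by omega)).symm, (iso_suf hc'.symm (by omega)).symm⟩

end Q25.SN
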