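import Mathlib
import Pool.Agent.Q25.SN.Basic
import Pool.Agent.Q25.SN.Words

/-!
# A left and right 2-nilpotent semigroup which is not supernilpotent
-/

namespace Q25.SN

open Ltr

abbrev Wd : Type := FreeSemigroup Ltr

/-- the list of letters of a word -/
def toL (w : Wd) : List Ltr := w.head :: w.tail

theorem toL_mul (v w : Wd) : toL (v * w) = toL v ++ toL w := rfl

theorem toL_ne (w : Wd) : toL w ≠ [] := by simp [toL]

theorem toL_inj {v w : Wd} (h : toL v = toL w) : v = w := by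
  cases v; cases w
  simp only [toL, List.cons.injEq] at h
  obtain ⟨rfl, rfl⟩ := h
  rfl

def isU (w : Wd) : Prop := ∃ D, toL w = uw D

def same (v w : Wd) : Prop := cont (toL v) = cont (toL w) ∧ inv (toL v) = inv (toL w)

theorem cont_eq_iff {l l' : List Ltr} (h : cont l = cont l') :
    cp l = cp l' ∧ cy l = cy l' ∧ cq l = cq l' ∧ cm l = cm l' := by
  simpa [cont] using h

theorem inv_congr {a b a' b' : List Ltr} (h : cont a = cont b) (h' : cont a' = cont b')
    (hi : inv a = inv b) (hi' : inv a' = inv b') : inv (a ++ a') = inv (b ++ b') := by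
  obtain ⟨h1, h2, h3, h4⟩ := cont_eq_iff h
  obtain ⟨h1', h2', h3', h4'⟩ := cont_eq_iff h'
  rw [inv_append, inv_append, h2, h3, h1', h2', hi, hi']

theorem same_mul {a b a' b' : Wd} (h : same a b) (h' : same a' b') :
    same (a * a') (b * b') := by
  refine ⟨?_, ?_⟩
  · rw [toL_mul, toL_mul, cont_append, cont_append, h.1, h'.1]
  · rw [toL_mul, toL_mul]
    exact inv_congr h.1 h'.1 h.2 h'.2

/-- the congruence of the example on words -/
def rel (v w : Wd) : Prop := v = w ∨ (same v w ∧ ¬ isU v ∧ ¬ isU w)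

theorem rel_same {v w : Wd} (h : rel v w) : same v w := by
  rcases h with rfl | h
  · exact ⟨rfl, rfl⟩
  · exact h.1

theorem same_symm {v w : Wd} (h : same v w) : same w v := ⟨h.1.symm, h.2.symm⟩

theorem lemB {a a' b b' : Wd} (hc : cont (toL a) = cont (toL b))
    (hc' : cont (toL a') = cont (toL b')) (h : same (a * a') (b * b')) (hU : isU (a * a')) :
    a = b ∧ a' = b' := by
  obtain ⟨D, hD⟩ := hU
  have hi : inv (toL b ++ toL b') = 0 := by
    rw [← toL_mul, ← h.2, hD, inv_uw]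
  have := lemA (toL_ne a) (toL_ne a') hD hc hc' hi
  exact ⟨toL_inj this.1, toL_inj this.2⟩

def exCon : Con Wd where
  r := rel
  iseqv := by
    refine ⟨fun v => Or.inl rfl, ?_, ?_⟩
    · rintro v w (rfl | ⟨h, h1, h2⟩)
      · exact Or.inl rfl
      · exact Or.inr ⟨same_symm h, h2, h1⟩
    · rintro u v w (rfl | ⟨h, h1, h2⟩) (rfl | ⟨h', h1', h2'⟩)
      · exact Or.inl rfl
      · exact Or.inr ⟨h', h1', h2'⟩
      · exact Or.inr ⟨h, h1, h2⟩
      · exact Or.inr ⟨⟨h.1.trans h'.1, h.2.trans h'.2⟩, h1, h2'⟩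
  mul' := by
    intro a b a' b' h h'
    have hs := rel_same h
    have hs' := rel_same h'
    have hm := same_mul hs hs'
    by_cases e : a * a' = b * b'
    · exact Or.inl e
    · refine Or.inr ⟨hm, fun hU => ?_, fun hU => ?_⟩
      · obtain ⟨rfl, rfl⟩ := lemB hs.1 hs'.1 hm hU
        exact e rfl
      · obtain ⟨rfl, rfl⟩ := lemB hs.1.symm hs'.1.symm (same_symm hm) hU
        exact e rfl

/-- The example. -/
abbrev Ex : Type := exCon.Quotient

/-- class of a word -/
def cl (w : Wd) : Ex := (w : exCon.Quotient)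

theorem cl_mul (v w : Wd) : cl (v * w) = cl v * cl w := rfl

theorem cl_eq {v w : Wd} : cl v = cl w ↔ rel v w := Con.eq exCon

theorem cl_surj (s : Ex) : ∃ w, cl w = s := Quot.exists_rep s

/-- content -/
def contS (s : Ex) : ℕ × ℕ × ℕ × ℕ :=
  Con.liftOn s (fun w => cont (toL w)) fun _ _ h => (rel_same h).1

/-- inversions -/
def invS (s : Ex) : ℕ :=
  Con.liftOn s (fun w => inv (toL w)) fun _ _ h => (rel_same h).2

theorem contS_cl (w : Wd) : contS (cl w) = cont (toL w) := rfl

theorem invS_cl (w : Wd) : invS (cl w) = inv (toL w) := rfl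

theorem contS_mul (s t : Ex) : contS (s * t) = contS s + contS t := by
  obtain ⟨v, rfl⟩ := cl_surj s
  obtain ⟨w, rfl⟩ := cl_surj t
  rw [← cl_mul, contS_cl, contS_cl, contS_cl, toL_mul, cont_append]

/-- the twisting term -/
def tw (c c' : ℕ × ℕ × ℕ × ℕ) : ℕ := c.2.1 * c'.1 + c.2.2.1 * (c'.1 + c'.2.1)

theorem invS_mul (s t : Ex) : invS (s * t) = invS s + invS t + tw (contS s) (contS t) := by
  obtain ⟨v, rfl⟩ := cl_surj s
  obtain ⟨w, rfl⟩ := cl_surj t
  rw [← cl_mul, invS_cl, invS_cl, invS_cl, toL_mul, inv_append]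
  simp only [tw, contS_cl, cont]
  ring

/-- Lemma B in the quotient -/
theorem lemC {s s' t t' : Ex} (hc : contS s = contS t) (hc' : contS s' = contS t')
    (hi : invS (s * s') = invS (t * t')) : s * s' = t * t' := by
  obtain ⟨a, rfl⟩ := cl_surj s
  obtain ⟨a', rfl⟩ := cl_surj s'
  obtain ⟨b, rfl⟩ := cl_surj t
  obtain ⟨b', rfl⟩ := cl_surj t'
  rw [← cl_mul, ← cl_mul] at hi ⊢
  rw [contS_cl, contS_cl] at hc hc'
  rw [invS_cl, invS_cl] at hi
  have hm : same (a * a') (b * b') := by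
    refine ⟨?_, hi⟩
    rw [toL_mul, toL_mul, cont_append, cont_append, hc, hc']
  rw [cl_eq]
  by_cases e : a * a' = b * b'
  · exact Or.inl e
  · refine Or.inr ⟨hm, fun hU => ?_, fun hU => ?_⟩
    · obtain ⟨rfl, rfl⟩ := lemB hc hc' hm hU
      exact e rfl
    · obtain ⟨rfl, rfl⟩ := lemB hc.symm hc'.symm (same_symm hm) hU
      exact e rfl

/-- equal content -/
def E1 : Con Ex where
  r s t := contS s = contS t
  iseqv := ⟨fun _ => rfl, fun h => h.symm, fun h h' => h.trans h'⟩
  mul' := by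
    intro a b c d h h'
    rw [contS_mul, contS_mul, h, h']

theorem E1_iff {s t : Ex} : E1 s t ↔ contS s = contS t := Iff.rfl

theorem cent_top_top : Centralizes (k := 1) ![(⊤ : Con Ex), ⊤] E1 := by
  refine cent_of (fun a b c d => contS a + contS d = contS b + contS c) ?_ ?_ ?_ ?_
  · intro a b _; rfl
  · intro a b _; exact add_comm _ _
  · intro a b c d a' b' c' d' h h'
    simp only [contS_mul]
    calc contS a + contS a' + (contS d + contS d')
        = (contS a + contS d) + (contS a' + contS d') := by abel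
      _ = (contS b + contS c) + (contS b' + contS c') := by rw [h, h']
      _ = _ := by abel
  · intro a b c d h h'
    rw [E1_iff] at h' ⊢
    rw [h'] at h
    exact (add_left_cancel h).symm

theorem cent_left : Centralizes (k := 1) ![(⊤ : Con Ex), E1] ⊥ := by
  refine cent_of (fun a b c d => contS a = contS b ∧ contS c = contS d ∧
    invS a + invS d = invS b + invS c ∧ ((a = c ∧ b = d) ∨ (invS c = invS d → c = d))) ?_ ?_ ?_ ?_
  · intro a b _
    exact ⟨rfl, rfl, rfl, Or.inr fun _ => rfl⟩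
  · intro a b h
    exact ⟨h, h, add_comm _ _, Or.inl ⟨rfl, rfl⟩⟩
  · rintro a b c d a' b' c' d' ⟨h1, h2, h3, -⟩ ⟨h1', h2', h3', -⟩
    refine ⟨?_, ?_, ?_, Or.inr fun h => lemC h2 h2' h⟩
    · rw [contS_mul, contS_mul, h1, h1']
    · rw [contS_mul, contS_mul, h2, h2']
    · simp only [invS_mul, h1, h1', h2, h2']
      omega
  · rintro a b c d ⟨-, -, h3, h4⟩ h
    have hab : a = b := h
    subst hab
    change c = d
    rcases h4 with ⟨rfl, rfl⟩ | h4
    · rfl
    · exact h4 (by omega)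

theorem cl_eq_of_rep {a : Ex} {B : Wd} (h : contS a = contS (cl B))
    (hB : ∀ x ∈ toL B, x = Ltr.y) : a = cl B := by
  obtain ⟨A, rfl⟩ := cl_surj a
  have e : toL B = List.replicate (toL B).length Ltr.y := List.eq_replicate_iff.mpr ⟨rfl, hB⟩
  rw [contS_cl, contS_cl, e, cont_rep] at h
  have := iso_rep h
  rw [toL_inj (this.trans e.symm)]

theorem rel_of_common {C D : Wd} (h : same C D) {A : Ltr} (hA : A ≠ Ltr.y)
    (hC : A ∈ toL C) (hD : A ∈ toL D) : rel C D := by
  have aux : ∀ {C D : Wd}, same C D → A ∈ toL C → A ∈ toL D → isU C → C = D := by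
    intro C D h hC hD hU
    obtain ⟨n, hn⟩ := hU
    have h1 := h.1
    have h2 := h.2
    rw [hn, cont_uw] at h1
    rw [hn, inv_uw] at h2
    rcases iso_uw h1.symm h2.symm with e | e
    · exact toL_inj (hn.trans e.symm)
    · exfalso
      rw [hn, uw] at hC
      rw [e, vw] at hD
      simp only [List.mem_cons, List.mem_append, List.not_mem_nil, or_false,
        List.mem_replicate] at hC hD
      cases A <;> simp_all
  by_cases hU : isU C
  · exact Or.inl (aux h hC hD hU)
  · by_cases hU' : isU D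
    · exact Or.inl (aux (same_symm h) hD hC hU').symm
    · exact Or.inr ⟨h, hU, hU'⟩

theorem cent_right : Centralizes (k := 1) ![E1, (⊤ : Con Ex)] ⊥ := by
  refine cent_of (fun a b c d => contS a = contS c ∧ contS b = contS d ∧
    invS c + invS b = invS d + invS a ∧ ((a = c ∧ b = d) ∨
      (∃ (C D : Wd) (A : Ltr), c = cl C ∧ d = cl D ∧ A ≠ Ltr.y ∧ A ∈ toL C ∧ A ∈ toL D)))
    ?_ ?_ ?_ ?_
  · intro a b h
    refine ⟨h, h, rfl, ?_⟩
    obtain ⟨B, rfl⟩ := cl_surj b
    by_cases hB : ∀ x ∈ toL B, x = Ltr.y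
    · left
      have := cl_eq_of_rep (E1_iff.mp h) hB
      exact ⟨this, this⟩
    · right
      push Not at hB
      obtain ⟨x, hx, hx'⟩ := hB
      exact ⟨B, B, x, rfl, rfl, hx', hx, hx⟩
  · intro a b _
    exact ⟨rfl, rfl, add_comm _ _, Or.inl ⟨rfl, rfl⟩⟩
  · rintro a b c d a' b' c' d' ⟨h1, h2, h3, h4⟩ ⟨h1', h2', h3', h4'⟩
    refine ⟨?_, ?_, ?_, ?_⟩
    · rw [contS_mul, contS_mul, h1, h1']
    · rw [contS_mul, contS_mul, h2, h2']
    · simp only [invS_mul, h1, h1', h2, h2']
      omega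
    · obtain ⟨C0, rfl⟩ := cl_surj c
      obtain ⟨D0, rfl⟩ := cl_surj d
      obtain ⟨C0', rfl⟩ := cl_surj c'
      obtain ⟨D0', rfl⟩ := cl_surj d'
      rcases h4 with ⟨rfl, rfl⟩ | ⟨C, D, A, hC, hD, hA, hAC, hAD⟩
      · rcases h4' with ⟨rfl, rfl⟩ | ⟨C', D', A, hC, hD, hA, hAC, hAD⟩
        · exact Or.inl ⟨rfl, rfl⟩
        · right
          refine ⟨C0 * C', D0 * D', A, ?_, ?_, hA, ?_, ?_⟩
          · rw [cl_mul, hC]
          · rw [cl_mul, hD]
          · rw [toL_mul]; exact List.mem_append_right _ hAC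
          · rw [toL_mul]; exact List.mem_append_right _ hAD
      · right
        refine ⟨C * C0', D * D0', A, ?_, ?_, hA, ?_, ?_⟩
        · rw [cl_mul, hC]
        · rw [cl_mul, hD]
        · rw [toL_mul]; exact List.mem_append_left _ hAC
        · rw [toL_mul]; exact List.mem_append_left _ hAD
  · rintro a b c d ⟨h1, h2, h3, h4⟩ h
    have hab : a = b := h
    subst hab
    change c = d
    rcases h4 with ⟨rfl, rfl⟩ | ⟨C, D, A, rfl, rfl, hA, hAC, hAD⟩
    · rfl
    · rw [cl_eq]
      refine rel_of_common ⟨?_, ?_⟩ hA hAC hAD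
      · rw [← contS_cl, ← contS_cl, ← h1, ← h2]
      · rw [← invS_cl, ← invS_cl]; omega

theorem ex_left : LeftNilpotent 2 Ex := by
  have h1 : leftSeries Ex 1 ≤ E1 := left_le (n := 0) le_rfl cent_top_top
  have h2 : leftSeries Ex 2 ≤ ⊥ := left_le h1 cent_left
  exact le_bot_iff.mp h2

theorem ex_right : RightNilpotent 2 Ex := by
  have h1 : rightSeries Ex 1 ≤ E1 := right_le (n := 0) le_rfl cent_top_top
  have h2 : rightSeries Ex 2 ≤ ⊥ := right_le h1 cent_right
  exact le_bot_iff.mp h2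

/-- middle letters -/
def mid {d : ℕ} (ε : Fin d → Bool) (i : Fin d) : Ltr := if ε i then Ltr.y else Ltr.p

theorem cube_mem {d : ℕ} (l : List (Fin d)) :
    (fun ε => (cl ⟨Ltr.pm, l.map (mid ε)⟩, cl ⟨Ltr.p, l.map (mid ε)⟩) : Mat Ex d) ∈
      mats (k := d) (fun _ => (⊤ : Con Ex)) := by
  induction l using List.reverseRecOn with
  | nil =>
    exact Subsemigroup.subset_closure (Or.inr ⟨cl ⟨Ltr.pm, []⟩, cl ⟨Ltr.p, []⟩, trivial, rfl⟩)
  | append_singleton l i ih =>
    have h2 : (fun ε => if ε i then (cl (FreeSemigroup.of Ltr.y), cl (FreeSemigroup.of Ltr.y))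
        else (cl (FreeSemigroup.of Ltr.p), cl (FreeSemigroup.of Ltr.p)) : Mat Ex d) ∈
        mats (k := d) (fun _ => (⊤ : Con Ex)) :=
      Subsemigroup.subset_closure (Or.inl ⟨i, _, _, trivial, rfl⟩)
    have h3 := Subsemigroup.mul_mem _ ih h2
    convert h3 using 1
    funext ε
    simp only [Pi.mul_apply, List.map_append, List.map_cons, List.map_nil, mid]
    cases ε i <;> rfl

theorem cube_mem' {d : ℕ} (l : List (Fin d)) :
    (fun ε => (cl ⟨Ltr.pm, l.map (mid ε) ++ [Ltr.q]⟩, cl ⟨Ltr.p, l.map (mid ε) ++ [Ltr.qm]⟩) :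
      Mat Ex d) ∈ mats (k := d) (fun _ => (⊤ : Con Ex)) := by
  have h2 : (fun _ => (cl (FreeSemigroup.of Ltr.q), cl (FreeSemigroup.of Ltr.qm)) : Mat Ex d) ∈
      mats (k := d) (fun _ => (⊤ : Con Ex)) :=
    Subsemigroup.subset_closure (Or.inr ⟨_, _, trivial, rfl⟩)
  exact Subsemigroup.mul_mem _ (cube_mem l) h2

theorem ex_not_super (d : ℕ) : ¬ Supernilpotent d Ex := by
  intro h
  have hc : Centralizes (k := d) (fun _ => (⊤ : Con Ex)) ⊥ := by
    have := (commutator_isLeast (k := d) (fun _ => (⊤ : Con Ex))).1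
    rw [h] at this
    exact this
  have h1 := hc _ (cube_mem' (List.finRange d)) ?_
  · have h2 : rel ⟨Ltr.pm, (List.finRange d).map (mid fun _ => true) ++ [Ltr.q]⟩
        ⟨Ltr.p, (List.finRange d).map (mid fun _ => true) ++ [Ltr.qm]⟩ := cl_eq.mp h1
    rcases h2 with h2 | ⟨-, h2, -⟩
    · injection h2 with h2 _
      exact absurd h2 (by decide)
    · refine h2 ⟨d, ?_⟩
      have : (List.finRange d).map (mid fun _ => true) = List.replicate d Ltr.y := by
        rw [List.eq_replicate_iff]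
        simp [mid]
      rw [this]
      rfl
  · intro ε hε
    have : ∃ i, ε i = false := by
      by_contra hn
      push Not at hn
      exact hε (funext fun i => by simpa using hn i)
    obtain ⟨i, hi⟩ := this
    refine cl_eq.mpr (Or.inr ⟨⟨?_, ?_⟩, ?_, ?_⟩)
    · simp [toL, cont, cp, cy, cq, cm, List.countP_cons, List.countP_append, isP, isY, isQ, isM]
    · simp [toL, inv, inv_append, isP, isY]
    · rintro ⟨n, hn⟩
      simp only [toL, uw, List.cons.injEq, true_and, List.append_cancel_right_eq] at hn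
      have : Ltr.p ∈ List.replicate n Ltr.y := by
        rw [← hn, List.mem_map]
        exact ⟨i, List.mem_finRange i, by simp [mid, hi]⟩
      exact absurd (List.eq_of_mem_replicate this) (by decide)
    · rintro ⟨n, hn⟩
      simp only [toL, uw, List.cons.injEq] at hn
      exact absurd hn.1 (by decide)

theorem ex_fg : ∃ A : Finset Ex, Subsemigroup.closure (A : Set Ex) = ⊤ := by
  classical
  refine ⟨{cl (FreeSemigroup.of Ltr.p), cl (FreeSemigroup.of Ltr.pm), cl (FreeSemigroup.of Ltr.y),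
    cl (FreeSemigroup.of Ltr.q), cl (FreeSemigroup.of Ltr.qm)}, ?_⟩
  rw [eq_top_iff]
  rintro s -
  obtain ⟨w, rfl⟩ := cl_surj s
  have hof : ∀ a : Ltr, cl (FreeSemigroup.of a) ∈ Subsemigroup.closure
      ((({cl (FreeSemigroup.of Ltr.p), cl (FreeSemigroup.of Ltr.pm), cl (FreeSemigroup.of Ltr.y),
    cl (FreeSemigroup.of Ltr.q), cl (FreeSemigroup.of Ltr.qm)} : Finset Ex)) : Set Ex) := by
    intro a
    apply Subsemigroup.subset_closure
    cases a <;> simp
  induction w using FreeSemigroup.recOnMul with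
  | ih1 a => exact hof a
  | ih2 a w _ ih =>
    rw [cl_mul]
    exact Subsemigroup.mul_mem _ (hof a) ih

end Q25.SN
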