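import Mathlib
import Pool.Agent.Q25.SN.Chain

/-!
# Supernilpotent semigroups are left and right nilpotent
-/

namespace Q25.SN

universe u

variable {S : Type u} [Semigroup S]

/-- the group of the local monoid at `W` -/
theorem SNs.group {k L : ℕ} (h : SNs k S) (h1 : k + 1 ≤ L) (h2 : (tm k).length ≤ L)
    (h3 : cwlen k ≤ L) (W : S) (hW : Len L (W : WithOne S)) :
    ∃ (G : Type u) (_ : Group G) (j : S → G), (∀ x y, j (x * W * y) = j x * j y) ∧
      (∀ x y, j x = j y → (W * x * W : WithOne S) = W * y * W) ∧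
      Subgroup.upperCentralSeries G k = ⊤ := by
  have hs : SNm k L (MW W) := h.local_mon W hW
  have ho : ∀ a b : MW W, ∃ u v, u * a = v * b := fun a b => (hs.ore h2 a b).2
  obtain ⟨G, _, ι, hi, hf⟩ := exists_frac (M := MW W)
    (fun a u v e => hs.left_cancel h1 e) (fun a u v e => hs.right_cancel h1 e) ho
  refine ⟨G, inferInstance, fun x => ι (cm W x), ?_, ?_, (hs.frac ι hi hf ho).ucs h3⟩
  · intro x y
    change ι _ = ι _ * ι _
    rw [← map_mul, cm_mul]
  · intro x y e
    exact eq_of_cm (hi e)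

/-- the group data at level `L` -/
structure Grp (S : Type u) [Semigroup S] (L : ℕ) (G : Type u) [Group G] where
  W : WithOne S
  hW : Len L W
  J : WithOne S → G
  mul : ∀ x y, Len 1 x → Len 1 y → J (x * W * y) = J x * J y
  inj : ∀ x y, Len 1 x → Len 1 y → J x = J y → W * x * W = W * y * W

/-- extension of a map to `S¹` -/
def extJ {G : Type u} [Group G] (j : S → G) : WithOne S → G
  | none => 1
  | some s => j s

theorem extJ_coe {G : Type u} [Group G] (j : S → G) (s : S) : extJ j (s : WithOne S) = j s := rfl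

theorem exists_grp [Nonempty S] {k L : ℕ} (h : SNs k S) (h1 : k + 1 ≤ L)
    (h2 : (tm k).length ≤ L) (h3 : cwlen k ≤ L) :
    ∃ (G : Type u) (_ : Group G) (_ : Grp S L G), Subgroup.upperCentralSeries G k = ⊤ := by
  obtain ⟨s⟩ := ‹Nonempty S›
  have hlen : Len L (lp (List.replicate L s)) := ⟨_, by simp, rfl⟩
  obtain ⟨W, hW⟩ := len_coe (by omega) hlen
  rw [hW] at hlen
  obtain ⟨G, _, j, hj1, hj2, hG⟩ := h.group h1 h2 h3 W hlen
  refine ⟨G, inferInstance, ⟨(W : WithOne S), hlen, extJ j, ?_, ?_⟩, hG⟩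
  · intro x y hx hy
    obtain ⟨x, rfl⟩ := len_coe le_rfl hx
    obtain ⟨y, rfl⟩ := len_coe le_rfl hy
    rw [extJ_coe, extJ_coe, ← WithOne.coe_mul, ← WithOne.coe_mul, extJ_coe, hj1]
  · intro x y hx hy e
    obtain ⟨x, rfl⟩ := len_coe le_rfl hx
    obtain ⟨y, rfl⟩ := len_coe le_rfl hy
    exact hj2 x y e

section group

variable {L : ℕ} (g : Good S L) {G : Type u} [Group G] (D : Grp S L G)

include g

theorem Grp.left {x : WithOne S} (hx : Len L x) (p : WithOne S) :
    ∃ A : G, ∀ y, Len L y → Rr x y → D.J (p * y) = A * D.J y := by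
  obtain ⟨A1, A2, e⟩ := g.lr x hx D.W (D.W * p)
  refine ⟨(D.J A2)⁻¹ * D.J A1, fun y hy hxy => ?_⟩
  obtain ⟨u, v, huv⟩ := hxy
  have key : (A1 * D.W) * y * v = (A2 * (D.W * p)) * y * v := by
    rw [mul_assoc _ y, ← huv, ← mul_assoc, e, mul_assoc _ x, huv, ← mul_assoc]
  have key2 := g.rc y hy v _ _ key
  have hp : 1 ≤ L := g.pos
  have e1 := D.mul A1 y (len_one A1) (hy.mono hp)
  have e2 := D.mul A2 (p * y) (len_one A2) ((hy.mul_left p).mono hp)
  have e3 : A2 * D.W * (p * y) = A1 * D.W * y := by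
    simpa only [mul_assoc] using key2.symm
  rw [mul_assoc, eq_inv_mul_iff_mul_eq, ← e1, ← e2, e3]

theorem Grp.right {x : WithOne S} (hx : Len L x) (q : WithOne S) :
    ∃ B : G, ∀ y, Len L y → Lr x y → D.J (y * q) = D.J y * B := by
  obtain ⟨B1, B2, e⟩ := g.rr x hx D.W (q * D.W)
  refine ⟨D.J B1 * (D.J B2)⁻¹, fun y hy hxy => ?_⟩
  obtain ⟨u, v, huv⟩ := hxy
  have key : v * y * (D.W * B1) = v * y * (q * D.W * B2) := by
    rw [← huv, mul_assoc (u : WithOne S), mul_assoc (u : WithOne S), ← mul_assoc x, e]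
    simp only [mul_assoc]
  have key2 := g.lc y hy v _ _ key
  have hp : 1 ≤ L := g.pos
  have e1 := D.mul y B1 (hy.mono hp) (len_one B1)
  have e2 := D.mul (y * q) B2 ((hy.mul_right q).mono hp) (len_one B2)
  have e3 : y * q * D.W * B2 = y * D.W * B1 := by
    simpa only [mul_assoc] using key2.symm
  rw [← mul_assoc, eq_mul_inv_iff_mul_eq, ← e1, ← e2, e3]

omit g in
theorem F_cases {g : Good S L} {a b : S} (h : (DR g 0 ⊓ DL g 0 : Con S) a b) :
    a = b ∨ (Len L (a : WithOne S) ∧ Len L (b : WithOne S) ∧ Rr (a : WithOne S) b ∧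
      Lr (a : WithOne S) b) := by
  rcases h.1 with h1 | ⟨ta, tb, h1⟩
  · exact Or.inl h1
  · rcases h.2 with h2 | ⟨_, _, h2⟩
    · exact Or.inl h2
    · refine Or.inr ⟨ta, tb, ?_, ?_⟩
      · simpa using h1 1 (len_zero 1)
      · simpa using h2 1 (len_zero 1)

omit g in
theorem J_left {g : Good S L} {Q : Type u} [Group Q] (f : G →* Q) {a b : S}
    (h : (DR g 0 ⊓ DL g 0 : Con S) a b) {z : Q} (hz : f (D.J b) = f (D.J a) * z) (p : S) :
    f (D.J ((p * b : S) : WithOne S)) = f (D.J ((p * a : S) : WithOne S)) * z := by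
  rcases F_cases h with rfl | ⟨ta, tb, h1, h2⟩
  · rw [left_eq_mul.mp hz, mul_one]
  · obtain ⟨A, hA⟩ := Grp.left g D ta (p : WithOne S)
    haveI : Nonempty S := ⟨a⟩
    rw [WithOne.coe_mul, WithOne.coe_mul, hA _ tb h1, hA _ ta (Rr.refl _), map_mul, map_mul, hz,
      mul_assoc]

omit g in
theorem J_right {g : Good S L} {Q : Type u} [Group Q] (f : G →* Q) {a b : S}
    (h : (DR g 0 ⊓ DL g 0 : Con S) a b) {z : Q} (hc : ∀ x, z * x = x * z)
    (hz : f (D.J b) = f (D.J a) * z) (p : S) :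
    f (D.J ((b * p : S) : WithOne S)) = f (D.J ((a * p : S) : WithOne S)) * z := by
  rcases F_cases h with rfl | ⟨ta, tb, h1, h2⟩
  · rw [left_eq_mul.mp hz, mul_one]
  · obtain ⟨B, hB⟩ := Grp.right g D ta (p : WithOne S)
    haveI : Nonempty S := ⟨a⟩
    rw [WithOne.coe_mul, WithOne.coe_mul, hB _ tb h2, hB _ ta (Lr.refl _), map_mul, map_mul, hz,
      mul_assoc, hc, mul_assoc]

/-- the congruence chain of the upper central series -/
def EC (i : ℕ) : Con S :=
  mkCon (fun a b => (DR g 0 ⊓ DL g 0 : Con S) a b ∧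
      QuotientGroup.mk' (Subgroup.upperCentralSeries G i) (D.J a) =
        QuotientGroup.mk' (Subgroup.upperCentralSeries G i) (D.J b))
    (fun a => ⟨(DR g 0 ⊓ DL g 0).refl a, rfl⟩)
    (fun a b h => ⟨(DR g 0 ⊓ DL g 0).symm h.1, h.2.symm⟩)
    (fun a b c h h' => ⟨(DR g 0 ⊓ DL g 0).trans h.1 h'.1, h.2.trans h'.2⟩)
    (by
      intro p a b h
      refine ⟨(DR g 0 ⊓ DL g 0).mul ((DR g 0 ⊓ DL g 0).refl p) h.1, ?_⟩
      have := J_left D (QuotientGroup.mk' (Subgroup.upperCentralSeries G i)) h.1 (z := 1)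
        (by rw [mul_one, h.2]) p
      rw [this, mul_one])
    (by
      intro p a b h
      refine ⟨(DR g 0 ⊓ DL g 0).mul h.1 ((DR g 0 ⊓ DL g 0).refl p), ?_⟩
      have := J_right D (QuotientGroup.mk' (Subgroup.upperCentralSeries G i)) h.1 (z := 1)
        (by simp) (by rw [mul_one, h.2]) p
      rw [this, mul_one])

theorem EC_cent (i : ℕ) : Cent2 (EC g D (i + 1)) (EC g D i) := by
  let Q := G ⧸ Subgroup.upperCentralSeries G i
  let f : G →* Q := QuotientGroup.mk' (Subgroup.upperCentralSeries G i)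
  refine cent2_of_shift (Z := Q) (fun a b z => (DR g 0 ⊓ DL g 0 : Con S) a b ∧
    (∀ x, z * x = x * z) ∧ f (D.J b) = f (D.J a) * z) ?_ ?_ ?_ ?_ ?_
  · intro a
    exact ⟨(DR g 0 ⊓ DL g 0).refl a, by simp, by simp⟩
  · intro a b h
    have h1 : (D.J a)⁻¹ * D.J b ∈ Subgroup.upperCentralSeries G (i + 1) :=
      QuotientGroup.eq.mp h.2
    refine ⟨f ((D.J a)⁻¹ * D.J b), h.1, fun x => central_of_ucs h1 x, ?_⟩
    rw [← map_mul]; simp
  · rintro a b a' b' z z' ⟨h1, h2, h3⟩ ⟨h1', h2', h3'⟩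
    refine ⟨(DR g 0 ⊓ DL g 0).mul h1 h1', fun x => ?_, ?_⟩
    · rw [mul_assoc, h2', ← mul_assoc, h2, mul_assoc]
    · rw [J_right D f h1 h2 h3 b', J_left D f h1' h3' a, mul_assoc, h2']
  · rintro a b c d z ⟨h1, h2, h3⟩ ⟨h1', h2', h3'⟩ h
    have e : f (D.J a) = f (D.J b) := h.2
    have hz : z = 1 := by
      rw [← e] at h3
      exact mul_eq_left.mp h3.symm
    refine ⟨h1', ?_⟩
    change f (D.J c) = f (D.J d)
    rw [h3', hz, mul_one]
  · rintro a b c d z ⟨h1, h2, h3⟩ ⟨h1', h2', h3'⟩ h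
    have e : f (D.J a) = f (D.J b) := h.2
    refine ⟨(DR g 0 ⊓ DL g 0).trans ((DR g 0 ⊓ DL g 0).symm h1)
      ((DR g 0 ⊓ DL g 0).trans h.1 h1'), ?_⟩
    change f (D.J c) = f (D.J d)
    rw [h3', h3, e]

theorem F_le_EC {k : ℕ} (hk : Subgroup.upperCentralSeries G k = ⊤) :
    DR g 0 ⊓ DL g 0 ≤ EC g D k := by
  intro a b h
  refine ⟨h, ?_⟩
  change (QuotientGroup.mk (D.J a) : G ⧸ Subgroup.upperCentralSeries G k) =
    QuotientGroup.mk (D.J b)
  rw [QuotientGroup.eq, hk]
  trivial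

theorem long_eq {x y : S} (tx : Len L (x : WithOne S)) (ty : Len L (y : WithOne S))
    (hr : Rr (x : WithOne S) y) (hl : Lr (x : WithOne S) y) (hJ : D.J x = D.J y) :
    (∀ p : WithOne S, Len L p → p * x = p * y) ∧ (∀ q : WithOne S, Len L q → x * q = y * q) := by
  haveI : Nonempty S := ⟨x⟩
  have hp1 : 1 ≤ L := g.pos
  have s1 : ∀ p q : WithOne S, D.W * (p * x * q) * D.W = D.W * (p * y * q) * D.W := by
    intro p q
    obtain ⟨A, hA⟩ := Grp.left g D tx p
    obtain ⟨B, hB⟩ := Grp.right g D (tx.mul_left p) q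
    apply D.inj
    · exact ((tx.mul_left p).mul_right q).mono hp1
    · exact ((ty.mul_left p).mul_right q).mono hp1
    · rw [hB _ (tx.mul_left p) (Lr.refl _), hB _ (ty.mul_left p) (lext g tx ty hl),
        hA _ tx (Rr.refl _), hA _ ty hr, hJ]
  have s2 : ∀ p q : WithOne S, Len L p → Len L q → p * x * q = p * y * q := by
    intro p q hp hq
    have e := s1 p q
    have e1 : D.W * p * (x * q * D.W) = D.W * p * (y * q * D.W) := by
      simpa only [mul_assoc] using e
    have e2 := g.lc p hp _ _ _ e1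
    have e3 : (p * x) * q * D.W = (p * y) * q * D.W := by
      simpa only [mul_assoc] using e2
    exact g.rc q hq _ _ _ e3
  obtain ⟨u', v', hr'⟩ := hr
  obtain ⟨u, v, hl'⟩ := hl
  constructor
  · intro p hp
    have e1 : (p * u) * x * D.W = (p * v) * x * D.W := by
      rw [s2 (p * v) D.W (hp.mul_right _) D.hW, mul_assoc p, hl', ← mul_assoc]
    have e2 := g.rc x tx _ _ _ e1
    have e3 : (p * v) * x = (p * v) * y := by
      rw [← e2, mul_assoc p, hl', ← mul_assoc]
    obtain ⟨α, β, e4⟩ := g.lr x tx (p * v) p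
    have e5 : (α * (p * v)) * y * v' = (β * p) * y * v' := by
      rw [mul_assoc _ (y : WithOne S), ← hr', ← mul_assoc, e4, mul_assoc _ (x : WithOne S), hr',
        ← mul_assoc]
    have e6 := g.rc y ty _ _ _ e5
    have e7 : β * p * x = β * p * y := by
      rw [← e4, mul_assoc, e3, ← mul_assoc, e6]
    exact g.lc p hp _ _ _ e7
  · intro q hq
    have e1 : D.W * x * (u' * q) = D.W * x * (v' * q) := by
      rw [s2 D.W (v' * q) D.hW (hq.mul_left _), mul_assoc, mul_assoc, ← mul_assoc (x : WithOne S),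
        hr', mul_assoc (y : WithOne S)]
    have e2 := g.lc x tx _ _ _ e1
    have e3 : x * (v' * q) = y * (v' * q) := by
      rw [← e2, ← mul_assoc, hr', mul_assoc]
    obtain ⟨α, β, e4⟩ := g.rr x tx (v' * q) q
    have e5 : v * y * ((v' * q) * α) = v * y * (q * β) := by
      rw [← hl', mul_assoc (u : WithOne S), mul_assoc (u : WithOne S), ← mul_assoc (x : WithOne S),
        e4, mul_assoc (x : WithOne S)]
    have e6 := g.lc y ty _ _ _ e5
    have e7 : x * q * β = y * q * β := by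
      rw [← e4, e3, mul_assoc, e6, ← mul_assoc]
    exact g.rc q hq _ _ _ e7

theorem EC_le_th : EC g D 0 ≤ th (2 * L) := by
  intro x y h
  rcases F_cases h.1 with rfl | ⟨tx, ty, hr, hl⟩
  · exact (th (2 * L)).refl _
  · have hJ : D.J x = D.J y := by
      have h1 : (D.J x)⁻¹ * D.J y ∈ Subgroup.upperCentralSeries G 0 := QuotientGroup.eq.mp h.2
      exact inv_mul_eq_one.mp (by simpa using h1)
    obtain ⟨h1, h2⟩ := long_eq g D tx ty hr hl hJ
    exact th_of h1 h2 (2 * L) 0 0 1 1 x y (len_zero 1) (len_zero 1) (by omega) (by simp) (by simp)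

end group

/-- the length of the cubes used -/
def lev (d : ℕ) : ℕ := (d + 1) + (tm d).length + cwlen d

/-- the bound for the nilpotency class -/
def cls (d : ℕ) : ℕ := (lev d - 1) + lev d + d + 2 * lev d

theorem semigroup_nilp {d : ℕ} (h : Supernilpotent d S) :
    LeftNilpotent (cls d) S ∧ RightNilpotent (cls d) S := by
  rcases isEmpty_or_nonempty S with hS | hS
  · constructor
    · apply le_bot_iff.mp
      intro a; exact isEmptyElim a
    · apply le_bot_iff.mp
      intro a; exact isEmptyElim a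
  have hs := super_SNs h
  have h1 : d + 1 ≤ lev d := by unfold lev; omega
  have h2 : (tm d).length ≤ lev d := by unfold lev; omega
  have h3 : cwlen d ≤ lev d := by unfold lev; omega
  set L := lev d with hL
  have g : Good S L := hs.good h1 h2
  obtain ⟨G, _, D, hG⟩ := exists_grp hs h1 h2 h3
  have c0 : leftSeries S 0 ≤ rho 1 ∧ rightSeries S 0 ≤ rho 1 := by
    have : (⊤ : Con S) ≤ rho 1 := fun a b _ => Or.inr ⟨len_one a, len_one b⟩
    exact ⟨this, this⟩
  have c1 := chain_le (n := 0) (fun i => (rho (1 + i) : Con S)) (L - 1) c0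
    (fun i _ => rho_cent (1 + i))
  simp only [show 1 + (L - 1) = L by omega, Nat.zero_add] at c1
  have r1 : rho L ≤ DR g L ⊓ DL g L := le_inf (rho_le_DR g) (rho_le_DL g)
  have c2 := chain_le (n := L - 1) (fun i => (DR g (L - i) ⊓ DL g (L - i) : Con S)) L
    (by simpa only [Nat.sub_zero] using ⟨c1.1.trans r1, c1.2.trans r1⟩)
    (fun i hi => by
      have e : L - i = (L - (i + 1)) + 1 := by omega
      simp only [e]
      exact cent2_inf (DR_cent g _) (DL_cent g _))
  simp only [Nat.sub_self] at c2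
  have r2 : DR g 0 ⊓ DL g 0 ≤ EC g D d := F_le_EC g D hG
  have c3 := chain_le (n := L - 1 + L) (fun i => (EC g D (d - i) : Con S)) d
    (by simpa only [Nat.sub_zero] using ⟨c2.1.trans r2, c2.2.trans r2⟩)
    (fun i hi => by
      have e : d - i = (d - (i + 1)) + 1 := by omega
      simp only [e]
      exact EC_cent g D _)
  simp only [Nat.sub_self] at c3
  have r3 : EC g D 0 ≤ th (2 * L) := EC_le_th g D
  have c4 := chain_le (n := L - 1 + L + d) (fun i => (th (2 * L - i) : Con S)) (2 * L)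
    (by simpa only [Nat.sub_zero] using ⟨c3.1.trans r3, c3.2.trans r3⟩)
    (fun i hi => by
      have e : 2 * L - i = (2 * L - (i + 1)) + 1 := by omega
      simp only [e]
      exact th_cent _)
  simp only [Nat.sub_self] at c4
  exact ⟨le_bot_iff.mp c4.1, le_bot_iff.mp c4.2⟩

end Q25.SN
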